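import Mathlib
import Pool.Agent.Helper240.ZFM.AreaA

/-! Upper distortion bound for the class `Σ`, from the area theorem. -/

set_option autoImplicit false
open Complex Filter Topology Set Metric

namespace Pool.Agent.TH325.BVM

open Pool.Agent.Helper405.Area

/-- The exterior of the closed unit disc. -/
def Ext : Set ℂ := {z : ℂ | 1 < ‖z‖}

theorem isOpen_Ext : IsOpen Ext := isOpen_lt continuous_const continuous_norm

theorem inv_mem_Dp {z : ℂ} (hz : z ∈ Ext) : z⁻¹ ∈ Dp := by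
  have hz1 : 1 < ‖z‖ := hz
  have hz0 : z ≠ 0 := by
    rintro rfl
    simp at hz1
    linarith
  refine ⟨?_, by simpa using hz0⟩
  rw [mem_ball_zero_iff, norm_inv]
  exact inv_lt_one_of_one_lt₀ hz1

theorem inv_mem_Ext {x : ℂ} (hx : x ∈ Dp) : x⁻¹ ∈ Ext := by
  have h1 := hx.1
  rw [mem_ball_zero_iff] at h1
  have h0 : x ≠ 0 := hx.2
  show 1 < ‖x⁻¹‖
  rw [norm_inv]
  exact (one_lt_inv₀ (norm_pos_iff.2 h0)).2 h1

theorem tendsto_inv_cob : Tendsto (fun x : ℂ => x⁻¹) (𝓝[≠] 0) (Bornology.cobounded ℂ) :=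
  Filter.tendsto_inv₀_nhdsNE_zero

/-- Finite Cauchy-Schwarz with weights. -/
theorem cs_fin {a : ℕ → ℂ} {x : ℂ} {r : ℝ} (hr : 0 < r) (N : ℕ) :
    ‖∑ n ∈ Finset.range N, (n : ℂ) * a (n + 1) * x ^ (n + 1)‖ ^ 2
      ≤ (∑ n ∈ Finset.range N, (n : ℝ) * ‖a (n + 1)‖ ^ 2 * r ^ (2 * (n + 1)))
        * ∑ n ∈ Finset.range N, (n : ℝ) * ((‖x‖ / r) ^ 2) ^ (n + 1) := by
  have h1 : ‖∑ n ∈ Finset.range N, (n : ℂ) * a (n + 1) * x ^ (n + 1)‖
      ≤ ∑ n ∈ Finset.range N, (Real.sqrt n * ‖a (n + 1)‖ * r ^ (n + 1)) * (Real.sqrt n * (‖x‖ / r) ^ (n + 1)) := by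
    refine (norm_sum_le _ _).trans (Finset.sum_le_sum fun n _ => ?_)
    rw [norm_mul, norm_mul, norm_pow, Complex.norm_natCast]
    have : (n : ℝ) = Real.sqrt n * Real.sqrt n := (Real.mul_self_sqrt (Nat.cast_nonneg n)).symm
    have h2 : r ^ (n + 1) * (‖x‖ / r) ^ (n + 1) = ‖x‖ ^ (n + 1) := by
      rw [← mul_pow, mul_div_cancel₀ _ hr.ne']
    calc (n : ℝ) * ‖a (n + 1)‖ * ‖x‖ ^ (n + 1) = (Real.sqrt n * Real.sqrt n) * ‖a (n + 1)‖ * (r ^ (n + 1) * (‖x‖ / r) ^ (n + 1)) := by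
          rw [h2, ← this]
      _ ≤ _ := le_of_eq (by ring)
  calc ‖∑ n ∈ Finset.range N, (n : ℂ) * a (n + 1) * x ^ (n + 1)‖ ^ 2
      ≤ (∑ n ∈ Finset.range N, (Real.sqrt n * ‖a (n + 1)‖ * r ^ (n + 1)) * (Real.sqrt n * (‖x‖ / r) ^ (n + 1))) ^ 2 := by
        gcongr
    _ ≤ (∑ n ∈ Finset.range N, (Real.sqrt n * ‖a (n + 1)‖ * r ^ (n + 1)) ^ 2) * ∑ n ∈ Finset.range N, (Real.sqrt n * (‖x‖ / r) ^ (n + 1)) ^ 2 :=
        Finset.sum_mul_sq_le_sq_mul_sq _ _ _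
    _ = _ := by
        congr 1
        · refine Finset.sum_congr rfl fun n _ => ?_
          rw [mul_pow, mul_pow, Real.sq_sqrt (Nat.cast_nonneg n), ← pow_mul]
          ring_nf
        · refine Finset.sum_congr rfl fun n _ => ?_
          rw [mul_pow, Real.sq_sqrt (Nat.cast_nonneg n), ← pow_mul, ← pow_mul]
          ring_nf

/-- The area theorem gives `|ψ'(z) - 1| ≤ 1 / (|z|² - 1)`. -/
theorem deriv_sub_one {ψ : ℂ → ℂ} (hd : DifferentiableOn ℂ ψ Ext) (hi : InjOn ψ Ext)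
    (hb : ∃ b : ℂ, Tendsto (fun z => ψ z - z) (Bornology.cobounded ℂ) (𝓝 b)) {z : ℂ} (hz : z ∈ Ext) :
    ‖deriv ψ z - 1‖ ≤ 1 / (‖z‖ ^ 2 - 1) := by
  obtain ⟨b, hb⟩ := hb
  set g : ℂ → ℂ := fun x => ψ x⁻¹ with hg
  have hgd : DifferentiableOn ℂ g Dp := by
    intro x hx
    have h1 : DifferentiableAt ℂ ψ x⁻¹ := (hd _ (inv_mem_Ext hx)).differentiableAt (isOpen_Ext.mem_nhds (inv_mem_Ext hx))
    exact (h1.comp x (differentiableAt_inv hx.2)).differentiableWithinAt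
  have hgi : InjOn g Dp := by
    intro x hx y hy h
    exact inv_injective (hi (inv_mem_Ext hx) (inv_mem_Ext hy) h)
  have hlim : Tendsto (fun x : ℂ => ψ x⁻¹ - x⁻¹) (𝓝[≠] 0) (𝓝 b) := hb.comp tendsto_inv_cob
  have hgp : Tendsto g (𝓝[≠] 0) (Bornology.cobounded ℂ) := by
    rw [← tendsto_norm_atTop_iff_cobounded]
    have h1 : Tendsto (fun x : ℂ => ‖x⁻¹‖) (𝓝[≠] 0) atTop := tendsto_norm_atTop_iff_cobounded.2 tendsto_inv_cob
    have h2 : Tendsto (fun x : ℂ => ‖x⁻¹‖ + -(‖ψ x⁻¹ - x⁻¹‖)) (𝓝[≠] 0) atTop :=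
      h1.atTop_add hlim.norm.neg
    refine tendsto_atTop_mono (fun x => ?_) h2
    have := norm_sub_norm_le (x⁻¹) (x⁻¹ - ψ x⁻¹)
    rw [sub_sub_cancel, norm_sub_rev x⁻¹ (ψ x⁻¹)] at this
    simp only [hg]
    linarith
  set P : ℂ → ℂ := Function.update (fun x => x * g x) 0 1 with hP
  have hP0 : P 0 = 1 := by simp [hP]
  have hPx : ∀ x, x ≠ 0 → P x = x * g x := fun x hx => by simp [hP, Function.update_of_ne hx]
  have hPc : ContinuousAt P 0 := by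
    rw [hP, continuousAt_update_same]
    have h1 : Tendsto (fun x : ℂ => 1 + x * (ψ x⁻¹ - x⁻¹)) (𝓝[≠] 0) (𝓝 (1 + 0 * b)) := by
      refine tendsto_const_nhds.add (Tendsto.mul ?_ hlim)
      exact tendsto_id.mono_left nhdsWithin_le_nhds
    rw [zero_mul, add_zero] at h1
    refine h1.congr' ?_
    filter_upwards [self_mem_nhdsWithin] with x hx
    have hx0 : x ≠ 0 := hx
    simp only [hg]
    rw [mul_sub, mul_inv_cancel₀ hx0]
    ring
  have hPd : DifferentiableOn ℂ P (ball 0 1) := by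
    rw [← Complex.differentiableOn_compl_singleton_and_continuousAt_iff (c := (0:ℂ)) (isOpen_ball.mem_nhds (mem_ball_self one_pos))]
    refine ⟨?_, hPc⟩
    intro x hx
    have hx0 : x ≠ 0 := hx.2
    have h1 : DifferentiableAt ℂ (fun x => x * g x) x := by
      refine differentiableAt_id.mul ?_
      exact (hgd x hx).differentiableAt (isOpen_Dp.mem_nhds hx)
    refine (h1.congr_of_eventuallyEq ?_).differentiableWithinAt
    filter_upwards [isOpen_ne.mem_nhds hx0] with y hy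
    exact hPx y hy
  set a : ℕ → ℂ := fun j => ((j.factorial : ℂ))⁻¹ * iteratedDeriv j P 0 with ha
  have haP : ∀ x ∈ ball (0:ℂ) 1, HasSum (fun j => a j * x ^ j) (P x) := by
    intro x hx
    have := Complex.hasSum_taylorSeries_on_ball (r := (1:ℝ)) (c := (0:ℂ)) hPd hx
    simp only [sub_zero, smul_eq_mul] at this
    refine this.congr_fun ?_ |> fun h => h
    intro j
    simp only [ha]
    ring
  have ha0 : a 0 = 1 := by simp [ha, hP0]
  clear_value a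
  have hF : ∀ x ∈ Dp, id (g x) * x ^ 1 = P x := by
    intro x hx
    rw [hPx x hx.2, id, pow_one, mul_comm]
  -- formula for the derivative
  have hder : ∀ x ∈ Dp, deriv ψ x⁻¹ = P x - x * deriv P x := by
    intro x hx
    have hx0 : x ≠ 0 := hx.2
    have h1 : HasDerivAt ψ (deriv ψ x⁻¹) x⁻¹ :=
      ((hd _ (inv_mem_Ext hx)).differentiableAt (isOpen_Ext.mem_nhds (inv_mem_Ext hx))).hasDerivAt
    have h2 : HasDerivAt g (deriv ψ x⁻¹ * -(x ^ 2)⁻¹) x := h1.comp x (hasDerivAt_inv hx0)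
    have h3 : HasDerivAt (fun x => x * g x) (1 * g x + x * (deriv ψ x⁻¹ * -(x ^ 2)⁻¹)) x := (hasDerivAt_id x).mul h2
    have h4 : deriv P x = 1 * g x + x * (deriv ψ x⁻¹ * -(x ^ 2)⁻¹) := by
      rw [← h3.deriv]
      apply Filter.EventuallyEq.deriv_eq
      filter_upwards [isOpen_ne.mem_nhds hx0] with y hy
      exact hPx y hy
    rw [h4, hPx x hx0]
    field_simp
    ring
  -- the area theorem
  have hkey : ∀ r : ℝ, 0 < r → r < 1 → ∀ N : ℕ, ∑ n ∈ Finset.range N, (n : ℝ) * ‖a (n + 1)‖ ^ 2 * r ^ (2 * (n + 1)) ≤ 1 := by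
    intro r hr0 hr1 N
    have hA := area hgd hgi hgp differentiable_id hPd hF haP hr0 hr1
    have hs : Summable fun j : ℕ => ((j : ℝ) - (1:ℕ)) * ‖a j‖ ^ 2 * r ^ (2 * j) := by
      obtain ⟨ρ, hρ1, hρ2⟩ := exists_between hr1
      have hρ0 : 0 < ρ := hr0.trans hρ1
      have h1 := summable_of_hasSum haP hr0.le hr1
      have h2 := (summable_of_hasSum (hasSum_Q haP 1) hr0.le hr1)
      have hb1 : ∃ M, ∀ j, ‖a j‖ * r ^ j ≤ M := by
        obtain ⟨M, hM⟩ := h1.tendsto_atTop_zero.bddAbove_range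
        exact ⟨M, fun j => hM ⟨j, rfl⟩⟩
      obtain ⟨M, hM⟩ := hb1
      refine Summable.of_norm_bounded (g := fun j => M * (‖((j : ℂ) - (1:ℕ)) * a j‖ * r ^ j)) (h2.mul_left M) ?_
      intro j
      rw [norm_mul, norm_mul, norm_pow, norm_pow, norm_mul, Real.norm_of_nonneg (norm_nonneg _), Real.norm_of_nonneg hr0.le]
      have h3 : ‖((j : ℂ) - ((1:ℕ) : ℂ))‖ = ‖((j : ℝ) - ((1:ℕ) : ℝ))‖ := by
        have : ((j : ℂ) - ((1:ℕ) : ℂ)) = (((j : ℝ) - ((1:ℕ) : ℝ) : ℝ) : ℂ) := by push_cast; ring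
        rw [this, Complex.norm_real]
      rw [h3]
      have h4 : ‖a j‖ ^ 2 * r ^ (2 * j) = (‖a j‖ * r ^ j) * (‖a j‖ * r ^ j) := by
        rw [two_mul, pow_add]; ring
      calc ‖((j : ℝ) - ((1:ℕ) : ℝ))‖ * ‖a j‖ ^ 2 * r ^ (2 * j) = ‖((j : ℝ) - ((1:ℕ) : ℝ))‖ * ((‖a j‖ * r ^ j) * (‖a j‖ * r ^ j)) := by
            rw [mul_assoc, h4]
        _ ≤ ‖((j : ℝ) - ((1:ℕ) : ℝ))‖ * (M * (‖a j‖ * r ^ j)) := by
            have := hM j
            gcongr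
        _ = _ := by ring
    have h1 := hs.sum_add_tsum_nat_add (N + 1)
    have h2 : 0 ≤ ∑' j : ℕ, ((((j + (N + 1) : ℕ)) : ℝ) - (1:ℕ)) * ‖a (j + (N + 1))‖ ^ 2 * r ^ (2 * (j + (N + 1))) := by
      apply tsum_nonneg
      intro j
      have : (0:ℝ) ≤ (((j + (N + 1) : ℕ)) : ℝ) - (1:ℕ) := by push_cast; linarith [(Nat.cast_nonneg j : (0:ℝ) ≤ j), (Nat.cast_nonneg N : (0:ℝ) ≤ N)]
      positivity
    have h3 : ∑ i ∈ Finset.range (N + 1), ((i : ℝ) - (1:ℕ)) * ‖a i‖ ^ 2 * r ^ (2 * i) ≤ 0 := by linarith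
    rw [Finset.sum_range_succ'] at h3
    simp only [ha0] at h3
    have h4 : ∀ n ∈ Finset.range N, (((n + 1 : ℕ) : ℝ) - (1:ℕ)) * ‖a (n + 1)‖ ^ 2 * r ^ (2 * (n + 1)) = (n : ℝ) * ‖a (n + 1)‖ ^ 2 * r ^ (2 * (n + 1)) := by
      intro n _
      push_cast; ring
    rw [Finset.sum_congr rfl h4] at h3
    norm_num at h3
    linarith
  set x : ℂ := z⁻¹ with hx
  have hxD : x ∈ Dp := inv_mem_Dp hz
  have hxn : ‖x‖ < 1 := by simpa [mem_ball_zero_iff] using hxD.1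
  have hx0 : 0 < ‖x‖ := norm_pos_iff.2 hxD.2
  have hzx : z = x⁻¹ := by rw [hx, inv_inv]
  have hsum : HasSum (fun n : ℕ => (n : ℂ) * a (n + 1) * x ^ (n + 1)) (1 - deriv ψ z) := by
    have h1 := hasSum_Q haP 1 x hxD.1
    have h2 : x * deriv P x - (1:ℕ) * P x = - deriv ψ z := by
      rw [hzx, hder x hxD]; push_cast; ring
    rw [h2] at h1
    have h3 := (hasSum_nat_add_iff' 1).2 h1
    simp only [Finset.range_one, Finset.sum_singleton, ha0] at h3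
    convert! h3 using 1
    · funext n; push_cast; ring
    · norm_num; ring
  have hbound : ∀ r : ℝ, ‖x‖ < r → r < 1 → ‖1 - deriv ψ z‖ ≤ (‖x‖ / r) ^ 2 / (1 - (‖x‖ / r) ^ 2) := by
    intro r hr hr1
    have hr0 : 0 < r := hx0.trans hr
    set q : ℝ := (‖x‖ / r) ^ 2 with hq
    have hq0 : 0 ≤ q := by positivity
    have hq1 : q < 1 := by
      rw [hq]
      have : ‖x‖ / r < 1 := (div_lt_one hr0).2 hr
      have h0 : 0 ≤ ‖x‖ / r := by positivity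
      nlinarith
    have hT : Tendsto (fun N => ‖∑ n ∈ Finset.range N, (n : ℂ) * a (n + 1) * x ^ (n + 1)‖) atTop (𝓝 ‖1 - deriv ψ z‖) :=
      hsum.tendsto_sum_nat.norm
    refine le_of_tendsto' hT fun N => ?_
    have h1 := cs_fin (a := a) (x := x) hr0 N
    have h2 := hkey r hr0 hr1 N
    have hgeo : HasSum (fun n : ℕ => (n : ℝ) * q ^ n) (q / (1 - q) ^ 2) :=
      hasSum_coe_mul_geometric_of_norm_lt_one (by rwa [Real.norm_of_nonneg hq0])
    have h3 : ∑ n ∈ Finset.range N, (n : ℝ) * q ^ (n + 1) ≤ (q / (1 - q)) ^ 2 := by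
      have h4 := hgeo.mul_left q
      have h5 : ∑ n ∈ Finset.range N, q * ((n : ℝ) * q ^ n) ≤ q * (q / (1 - q) ^ 2) :=
        sum_le_hasSum _ (fun n _ => by positivity) h4
      calc ∑ n ∈ Finset.range N, (n : ℝ) * q ^ (n + 1) = ∑ n ∈ Finset.range N, q * ((n : ℝ) * q ^ n) :=
            Finset.sum_congr rfl fun n _ => by rw [pow_succ]; ring
        _ ≤ q * (q / (1 - q) ^ 2) := h5
        _ = (q / (1 - q)) ^ 2 := by rw [div_pow]; ring
    have h6 : ‖∑ n ∈ Finset.range N, (n : ℂ) * a (n + 1) * x ^ (n + 1)‖ ^ 2 ≤ (q / (1 - q)) ^ 2 := by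
      refine h1.trans ?_
      have h7 : 0 ≤ ∑ n ∈ Finset.range N, (n : ℝ) * q ^ (n + 1) := Finset.sum_nonneg fun n _ => by positivity
      calc _ ≤ 1 * (q / (1 - q)) ^ 2 := by
            refine mul_le_mul h2 h3 h7 zero_le_one
        _ = _ := one_mul _
    have h8 : 0 ≤ q / (1 - q) := div_nonneg hq0 (by linarith)
    exact le_of_sq_le_sq h6 h8
  have hlim2 : Tendsto (fun r : ℝ => (‖x‖ / r) ^ 2 / (1 - (‖x‖ / r) ^ 2)) (𝓝[<] 1) (𝓝 ((‖x‖ / 1) ^ 2 / (1 - (‖x‖ / 1) ^ 2))) := by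
    have hc : ContinuousAt (fun r : ℝ => (‖x‖ / r) ^ 2 / (1 - (‖x‖ / r) ^ 2)) 1 := by
      have h0 : (1:ℝ) - (‖x‖ / 1) ^ 2 ≠ 0 := by
        rw [div_one]
        nlinarith
      have h1 : ContinuousAt (fun r : ℝ => ‖x‖ / r) 1 := continuousAt_const.div continuousAt_id one_ne_zero
      exact (h1.pow 2).div (continuousAt_const.sub (h1.pow 2)) h0
    exact hc.tendsto.mono_left nhdsWithin_le_nhds
  have hfin : ‖1 - deriv ψ z‖ ≤ (‖x‖ / 1) ^ 2 / (1 - (‖x‖ / 1) ^ 2) := by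
    refine ge_of_tendsto hlim2 ?_
    filter_upwards [Ioo_mem_nhdsLT hxn] with r hr
    exact hbound r hr.1 hr.2
  rw [norm_sub_rev]
  refine hfin.trans (le_of_eq ?_)
  rw [div_one, hx, norm_inv]
  have hz1 : 1 < ‖z‖ := hz
  have h1 : ‖z‖ ≠ 0 := by positivity
  have h2 : ‖z‖ ^ 2 - 1 ≠ 0 := by nlinarith
  rw [inv_pow]
  have h3 : (1:ℝ) - (‖z‖ ^ 2)⁻¹ = (‖z‖ ^ 2 - 1) / ‖z‖ ^ 2 := by field_simp
  rw [h3]
  field_simp

end Pool.Agent.TH325.BVM
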