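import Mathlib
import Pool.Agent.TH325.BVM.A
import Pool.Agent.Helper240.ZFM.B1

/-! Two-sided bounds for `Re h`, `h = log ψ'`, `ψ` in the class `Σ`. -/

set_option autoImplicit false
open Complex Filter Topology Set Metric

namespace Pool.Agent.TH325.BVM

/-- The Möbius map `ζ ↦ (ζ + s) / (1 + s ζ)` maps the disc to itself. -/
theorem mob_mem {s : ℝ} (hs0 : 0 ≤ s) (hs1 : s < 1) {ζ : ℂ} (hζ : ζ ∈ ball (0:ℂ) 1) :
    1 + (s:ℂ) * ζ ≠ 0 ∧ ‖(ζ + s) / (1 + (s:ℂ) * ζ)‖ < 1 := by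
  rw [mem_ball_zero_iff] at hζ
  have h1 : 1 + (s:ℂ) * ζ ≠ 0 := by
    intro h
    have h2 : ‖(s:ℂ) * ζ‖ = 1 := by
      have : (s:ℂ) * ζ = -1 := by linear_combination h
      rw [this]; simp
    rw [norm_mul, Complex.norm_real, Real.norm_of_nonneg hs0] at h2
    nlinarith [norm_nonneg ζ]
  refine ⟨h1, ?_⟩
  rw [norm_div, div_lt_one (norm_pos_iff.2 h1)]
  apply lt_of_pow_lt_pow_left₀ 2 (norm_nonneg _)
  rw [← Complex.normSq_eq_norm_sq, ← Complex.normSq_eq_norm_sq]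
  have h2 : Complex.normSq ζ < 1 := by
    rw [Complex.normSq_eq_norm_sq]
    nlinarith [norm_nonneg ζ]
  rw [Complex.normSq_apply] at h2 ⊢
  rw [Complex.normSq_apply]
  simp only [add_re, add_im, ofReal_re, ofReal_im, one_re, one_im, mul_re, mul_im, zero_mul, sub_zero, add_zero, zero_add]
  nlinarith [mul_pos (show (0:ℝ) < 1 - s by linarith) (show (0:ℝ) < 1 - (ζ.re * ζ.re + ζ.im * ζ.im) by linarith), mul_nonneg hs0 (show (0:ℝ) ≤ 1 - s by linarith)]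

theorem mob_inj {s : ℝ} (hs0 : 0 ≤ s) (hs1 : s < 1) :
    InjOn (fun ζ : ℂ => (ζ + s) / (1 + (s:ℂ) * ζ)) (ball 0 1) := by
  intro ζ hζ η hη h
  have h1 := (mob_mem hs0 hs1 hζ).1
  have h2 := (mob_mem hs0 hs1 hη).1
  simp only at h
  rw [div_eq_div_iff h1 h2] at h
  have h3 : (1 - (s:ℂ) ^ 2) * (ζ - η) = 0 := by linear_combination h
  rcases mul_eq_zero.1 h3 with h4 | h4
  · exfalso
    have h5 : ((1 - s ^ 2 : ℝ) : ℂ) = 0 := by push_cast; exact h4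
    rw [Complex.ofReal_eq_zero] at h5
    nlinarith
  · exact sub_eq_zero.1 h4

theorem exp_deriv {ψ h : ℂ → ℂ} (hh : DifferentiableOn ℂ h Ext)
    (he : ∀ z ∈ Ext, exp (h z) = deriv ψ z) {z : ℂ} (hz : z ∈ Ext) :
    deriv (deriv ψ) z = deriv h z * exp (h z) := by
  have h1 : HasDerivAt h (deriv h z) z := ((hh z hz).differentiableAt (isOpen_Ext.mem_nhds hz)).hasDerivAt
  have h2 := h1.cexp
  have h3 : deriv ψ =ᶠ[𝓝 z] fun w => exp (h w) := by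
    filter_upwards [isOpen_Ext.mem_nhds hz] with w hw
    exact (he w hw).symm
  rw [h3.deriv_eq, h2.deriv]
  ring

/-- The radial pre-Schwarzian bound on the disc `|z - 2ω| < 1`. -/
theorem radial {ψ h : ℂ → ℂ} (hd : DifferentiableOn ℂ ψ Ext) (hi : InjOn ψ Ext)
    (hh : DifferentiableOn ℂ h Ext) (he : ∀ z ∈ Ext, exp (h z) = deriv ψ z)
    {ω : ℂ} (hω : ‖ω‖ = 1) {s : ℝ} (hs0 : 0 ≤ s) (hs1 : s < 1) :
    (ω * deriv h (ω * (2 - s))).re ≤ (4 - 2 * s) / (1 - s ^ 2) := by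
  have hω0 : ω ≠ 0 := by rintro rfl; simp at hω
  have hmap : ∀ w : ℂ, ‖w‖ < 1 → 2 * ω - ω * w ∈ Ext := by
    intro w hw
    show 1 < ‖2 * ω - ω * w‖
    have h1 : 2 * ω - ω * w = ω * (2 - w) := by ring
    rw [h1, norm_mul, hω, one_mul]
    have := norm_sub_norm_le (2:ℂ) w
    simp at this
    linarith
  set m : ℂ → ℂ := fun ζ => (ζ + s) / (1 + (s:ℂ) * ζ) with hm
  have hmd : ∀ ζ ∈ ball (0:ℂ) 1, HasDerivAt m ((1 - (s:ℂ) ^ 2) / (1 + (s:ℂ) * ζ) ^ 2) ζ := by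
    intro ζ hζ
    have h1 := (mob_mem hs0 hs1 hζ).1
    have h2 : HasDerivAt (fun ζ : ℂ => ζ + s) 1 ζ := (hasDerivAt_id ζ).add_const _
    have h3 : HasDerivAt (fun ζ : ℂ => 1 + (s:ℂ) * ζ) (s:ℂ) ζ := by
      simpa using ((hasDerivAt_id ζ).const_mul (s:ℂ)).const_add 1
    refine (h2.div h3 h1).congr_deriv ?_
    congr 1
    ring
  set φ : ℂ → ℂ := fun ζ => ψ (2 * ω - ω * m ζ) with hφ
  have hφ1 : ∀ ζ ∈ ball (0:ℂ) 1, HasDerivAt φ (deriv ψ (2 * ω - ω * m ζ) * (-(ω * ((1 - (s:ℂ) ^ 2) / (1 + (s:ℂ) * ζ) ^ 2)))) ζ := by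
    intro ζ hζ
    have hE := hmap _ (mob_mem hs0 hs1 hζ).2
    have h1 : HasDerivAt ψ (deriv ψ (2 * ω - ω * m ζ)) (2 * ω - ω * m ζ) :=
      ((hd _ hE).differentiableAt (isOpen_Ext.mem_nhds hE)).hasDerivAt
    exact h1.comp ζ (((hmd ζ hζ).const_mul ω).const_sub (2 * ω))
  have hφd : DifferentiableOn ℂ φ (ball 0 1) := fun ζ hζ => (hφ1 ζ hζ).differentiableAt.differentiableWithinAt
  have hφi : InjOn φ (ball 0 1) := by
    intro ζ hζ η hη hE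
    have h1 := hi (hmap _ (mob_mem hs0 hs1 hζ).2) (hmap _ (mob_mem hs0 hs1 hη).2) hE
    have h2 : ω * m ζ = ω * m η := by linear_combination -h1
    exact mob_inj hs0 hs1 hζ hη (mul_left_cancel₀ hω0 h2)
  have hb := ZFM.J_b1.bieb hφd hφi
  have h0 : (0:ℂ) ∈ ball (0:ℂ) 1 := mem_ball_self one_pos
  set y : ℂ := ω * (2 - s) with hy
  have hm0 : 2 * ω - ω * m 0 = y := by simp only [hm, hy]; simp; ring
  have hyE : y ∈ Ext := by rw [← hm0]; exact hmap _ (mob_mem hs0 hs1 h0).2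
  have e1 : deriv φ 0 = deriv ψ y * (-(ω * (1 - (s:ℂ) ^ 2))) := by
    rw [(hφ1 0 h0).deriv, hm0]; simp
  have e2 : deriv (deriv φ) 0 = deriv (deriv ψ) y * (-(ω * (1 - (s:ℂ) ^ 2))) * (-(ω * (1 - (s:ℂ) ^ 2)))
      + deriv ψ y * (ω * (1 - (s:ℂ) ^ 2) * (2 * s)) := by
    have h1 : deriv φ =ᶠ[𝓝 0] fun ζ => deriv ψ (2 * ω - ω * m ζ) * (-(ω * ((1 - (s:ℂ) ^ 2) / (1 + (s:ℂ) * ζ) ^ 2))) := by
      filter_upwards [isOpen_ball.mem_nhds h0] with ζ hζ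
      exact (hφ1 ζ hζ).deriv
    have h2 : HasDerivAt (deriv ψ) (deriv (deriv ψ) y) (2 * ω - ω * m 0) := by
      rw [hm0]
      exact (((hd.deriv isOpen_Ext) y hyE).differentiableAt (isOpen_Ext.mem_nhds hyE)).hasDerivAt
    have h3 := h2.comp (0:ℂ) (((hmd 0 h0).const_mul ω).const_sub (2 * ω))
    have h4 : HasDerivAt (fun ζ : ℂ => (1 + (s:ℂ) * ζ) ^ 2) (2 * (s:ℂ)) 0 := by
      have h5 : HasDerivAt (fun ζ : ℂ => 1 + (s:ℂ) * ζ) (s:ℂ) 0 := by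
        simpa using ((hasDerivAt_id (0:ℂ)).const_mul (s:ℂ)).const_add 1
      refine (h5.pow 2).congr_deriv ?_
      simp
    have h5 : HasDerivAt (fun ζ : ℂ => (1 - (s:ℂ) ^ 2) / (1 + (s:ℂ) * ζ) ^ 2) (-((1 - (s:ℂ) ^ 2) * (2 * s))) 0 := by
      refine ((hasDerivAt_const (0:ℂ) (1 - (s:ℂ) ^ 2)).div h4 (by simp)).congr_deriv ?_
      simp
    have h6 := h3.mul ((h5.const_mul ω).neg)
    have h7 : deriv (fun ζ => deriv ψ (2 * ω - ω * m ζ) * (-(ω * ((1 - (s:ℂ) ^ 2) / (1 + (s:ℂ) * ζ) ^ 2)))) 0 = _ := h6.deriv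
    rw [h1.deriv_eq, h7]
    simp only [Function.comp, Pi.neg_apply, hm0, mul_zero, add_zero, one_pow, div_one]
    ring
  have hne : deriv ψ y ≠ 0 := by rw [← he y hyE]; exact exp_ne_zero _
  have e3 : deriv (deriv ψ) y = deriv h y * deriv ψ y := by
    rw [exp_deriv hh he hyE, he y hyE]
  rw [e1, e2, e3] at hb
  have e4 : deriv h y * deriv ψ y * (-(ω * (1 - (s:ℂ) ^ 2))) * (-(ω * (1 - (s:ℂ) ^ 2))) + deriv ψ y * (ω * (1 - (s:ℂ) ^ 2) * (2 * s))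
      = (deriv ψ y * (-(ω * (1 - (s:ℂ) ^ 2)))) * (-(ω * deriv h y * (1 - (s:ℂ) ^ 2) + 2 * s)) := by ring
  rw [e4, norm_mul, mul_comm (4:ℝ)] at hb
  have hs2 : 0 < 1 - s ^ 2 := by nlinarith
  have hpos : 0 < ‖deriv ψ y * (-(ω * (1 - (s:ℂ) ^ 2)))‖ := by
    rw [norm_pos_iff]
    refine mul_ne_zero hne (neg_ne_zero.2 (mul_ne_zero hω0 ?_))
    have : (1 - (s:ℂ) ^ 2) = ((1 - s ^ 2 : ℝ) : ℂ) := by push_cast; ring
    rw [this]
    exact_mod_cast hs2.ne'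
  have hc := le_of_mul_le_mul_left hb hpos
  rw [norm_neg] at hc
  have hre := (Complex.abs_re_le_norm _).trans hc
  have e5 : (ω * deriv h y * (1 - (s:ℂ) ^ 2) + 2 * s).re = (ω * deriv h y).re * (1 - s ^ 2) + 2 * s := by
    have : (1 - (s:ℂ) ^ 2) = ((1 - s ^ 2 : ℝ) : ℂ) := by push_cast; ring
    rw [this, add_re, re_mul_ofReal]
    simp
  rw [e5] at hre
  have := (abs_le.1 hre).2
  rw [le_div_iff₀ hs2]
  linarith

/-- Upper bound for `Re h`. -/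
theorem re_le {ψ h : ℂ → ℂ} (hd : DifferentiableOn ℂ ψ Ext) (hi : InjOn ψ Ext)
    (hb : ∃ b : ℂ, Tendsto (fun z => ψ z - z) (Bornology.cobounded ℂ) (𝓝 b))
    (he : ∀ z ∈ Ext, exp (h z) = deriv ψ z) {z : ℂ} (hz : z ∈ Ext) :
    (h z).re ≤ Real.log (‖z‖ ^ 2 / (‖z‖ ^ 2 - 1)) := by
  have hz1 : 1 < ‖z‖ := hz
  have h2 : 0 < ‖z‖ ^ 2 - 1 := by nlinarith
  have h1 := deriv_sub_one hd hi hb hz
  have h3 : ‖deriv ψ z‖ ≤ ‖z‖ ^ 2 / (‖z‖ ^ 2 - 1) := by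
    have h4 : ‖deriv ψ z‖ ≤ ‖deriv ψ z - 1‖ + 1 := by
      have := norm_add_le (deriv ψ z - 1) 1
      simpa using this
    have h5 : ‖z‖ ^ 2 / (‖z‖ ^ 2 - 1) = 1 / (‖z‖ ^ 2 - 1) + 1 := by field_simp; ring
    rw [h5]
    linarith
  rw [← he z hz, Complex.norm_exp] at h3
  have h4 : 0 < ‖z‖ ^ 2 / (‖z‖ ^ 2 - 1) := by positivity
  rwa [← Real.le_log_iff_exp_le h4] at h3

/-- Lower bound for `Re h` on `1 < |z| ≤ 2`. -/
theorem re_ge {ψ h : ℂ → ℂ} (hd : DifferentiableOn ℂ ψ Ext) (hi : InjOn ψ Ext)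
    (hb : ∃ b : ℂ, Tendsto (fun z => ψ z - z) (Bornology.cobounded ℂ) (𝓝 b))
    (hh : DifferentiableOn ℂ h Ext) (he : ∀ z ∈ Ext, exp (h z) = deriv ψ z)
    {ω : ℂ} (hω : ‖ω‖ = 1) {r : ℝ} (hr1 : 1 < r) (hr2 : r ≤ 2) :
    Real.log (r - 1) - 4 ≤ (h (ω * r)).re := by
  have hE : ∀ s : ℝ, 0 ≤ s → s < 1 → ω * (2 - (s:ℂ)) ∈ Ext := by
    intro s h0 h1
    show 1 < ‖ω * (2 - (s:ℂ))‖
    have : (2 - (s:ℂ)) = ((2 - s : ℝ) : ℂ) := by push_cast; ring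
    rw [norm_mul, hω, one_mul, this, Complex.norm_real, Real.norm_of_nonneg (by linarith)]
    linarith
  set Q : ℝ → ℝ := fun s => (h (ω * (2 - (s:ℂ)))).re - Real.log (1 - s) + 3 * Real.log (1 + s) with hQ
  have hQd : ∀ s ∈ Ico (0:ℝ) 1, HasDerivAt Q (-(ω * deriv h (ω * (2 - (s:ℂ)))).re - (-1) / (1 - s) + 3 * (1 / (1 + s))) s := by
    intro s hs
    have h1 : HasDerivAt h (deriv h (ω * (2 - (s:ℂ)))) (ω * (2 - (s:ℂ))) :=
      ((hh _ (hE s hs.1 hs.2)).differentiableAt (isOpen_Ext.mem_nhds (hE s hs.1 hs.2))).hasDerivAt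
    have h2 : HasDerivAt (fun s : ℝ => ω * (2 - (s:ℂ))) (ω * (-1)) s := by
      have h3 : HasDerivAt (fun s : ℝ => (s : ℂ)) 1 s := Complex.ofRealCLM.hasDerivAt
      exact ((h3.const_sub 2).const_mul ω)
    have h3 : HasDerivAt (fun s : ℝ => h (ω * (2 - (s:ℂ)))) (deriv h (ω * (2 - (s:ℂ))) * (ω * (-1))) s := h1.comp s h2
    have h4 : HasDerivAt (fun s : ℝ => (h (ω * (2 - (s:ℂ)))).re) (deriv h (ω * (2 - (s:ℂ))) * (ω * (-1))).re s := by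
      exact Complex.reCLM.hasFDerivAt.comp_hasDerivAt s h3
    have h5 : HasDerivAt (fun s : ℝ => Real.log (1 - s)) ((-1) / (1 - s)) s :=
      ((hasDerivAt_id s).const_sub 1).log (by simp; linarith [hs.2])
    have h6 : HasDerivAt (fun s : ℝ => Real.log (1 + s)) (1 / (1 + s)) s :=
      ((hasDerivAt_id s).const_add 1).log (by simp; linarith [hs.1])
    have h7 := (h4.sub h5).add (h6.const_mul 3)
    refine h7.congr_deriv ?_
    have : (deriv h (ω * (2 - (s:ℂ))) * (ω * (-1))).re = -(ω * deriv h (ω * (2 - (s:ℂ)))).re := by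
      rw [← Complex.neg_re]; congr 1; ring
    rw [this]
  have hmono : MonotoneOn Q (Ico (0:ℝ) 1) := by
    apply monotoneOn_of_deriv_nonneg (convex_Ico 0 1)
    · intro s hs
      exact (hQd s hs).continuousAt.continuousWithinAt
    · intro s hs
      rw [interior_Ico] at hs
      exact (hQd s ⟨hs.1.le, hs.2⟩).differentiableAt.differentiableWithinAt
    · intro s hs
      rw [interior_Ico] at hs
      rw [(hQd s ⟨hs.1.le, hs.2⟩).deriv]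
      have h1 := radial hd hi hh he hω hs.1.le hs.2
      have h2 : (4 - 2 * s) / (1 - s ^ 2) = 1 / (1 - s) + 3 * (1 / (1 + s)) := by
        have h3 : 1 - s ≠ 0 := by linarith [hs.2]
        have h4 : 1 + s ≠ 0 := by linarith [hs.1]
        have h5 : 1 - s ^ 2 ≠ 0 := by nlinarith [hs.1, hs.2]
        field_simp
        ring
      rw [h2] at h1
      have h3 : (-1) / (1 - s) = -(1 / (1 - s)) := by ring
      rw [h3]
      linarith
  have hs0 : (0:ℝ) ∈ Ico (0:ℝ) 1 := ⟨le_rfl, one_pos⟩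
  have hs1 : 2 - r ∈ Ico (0:ℝ) 1 := ⟨by linarith, by linarith⟩
  have hm := hmono hs0 hs1 hs1.1
  simp only [hQ] at hm
  -- value at 2ω
  have hE2 : ω * 2 ∈ Ext := by
    have := hE 0 le_rfl one_pos
    simpa using this
  have hn2 : ‖ω * 2‖ = 2 := by rw [norm_mul, hω]; simp
  have h2 : -1 ≤ (h (ω * 2)).re := by
    have h1 := deriv_sub_one hd hi hb hE2
    rw [hn2] at h1
    have h3 : 1 - 1 / 3 ≤ ‖deriv ψ (ω * 2)‖ := by
      have := norm_sub_norm_le (1:ℂ) (1 - deriv ψ (ω * 2))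
      rw [norm_one, sub_sub_cancel, norm_sub_rev] at this
      norm_num at h1 ⊢
      linarith
    rw [← he _ hE2, Complex.norm_exp] at h3
    have h4 : Real.exp (-1) ≤ Real.exp (h (ω * 2)).re := by
      have h5 := Real.exp_one_gt_d9
      have h6 : Real.exp (-1) * Real.exp 1 = 1 := by rw [← Real.exp_add]; simp
      nlinarith [Real.exp_pos (-1)]
    exact Real.exp_le_exp.1 h4
  have e1 : ω * (2 - ((2 - r : ℝ) : ℂ)) = ω * r := by push_cast; ring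
  rw [e1] at hm
  have e2 : (1:ℝ) - (2 - r) = r - 1 := by ring
  rw [e2] at hm
  have e3 : ω * (2 - ((0:ℝ):ℂ)) = ω * 2 := by simp
  rw [e3] at hm
  norm_num at hm
  have h3 : Real.log (1 + (2 - r)) ≤ 1 := by
    have h4 : Real.log (1 + (2 - r)) ≤ Real.log 2 := Real.log_le_log (by linarith) (by linarith)
    have h5 := Real.log_two_lt_d9
    linarith
  linarith

end Pool.Agent.TH325.BVM
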