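import Mathlib
import Pool.Agent.TH325.BVM.B

/-! Main estimate. -/

set_option autoImplicit false
open Complex Filter Topology Set Metric MeasureTheory

namespace Pool.Agent.TH325.BVM

/-- the point `r e^{iθ}` -/
noncomputable def pt (r θ : ℝ) : ℂ := (r : ℂ) * exp ((θ : ℂ) * I)

theorem norm_pt {r : ℝ} (hr : 0 ≤ r) (θ : ℝ) : ‖pt r θ‖ = r := by
  rw [pt, norm_mul, Complex.norm_exp_ofReal_mul_I, mul_one, Complex.norm_real, Real.norm_of_nonneg hr]

theorem pt_mem {r : ℝ} (hr : 1 < r) (θ : ℝ) : pt r θ ∈ Ext := by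
  show 1 < ‖pt r θ‖
  rw [norm_pt (by linarith)]
  exact hr

theorem continuous_pt : Continuous fun p : ℝ × ℝ => pt p.1 p.2 := by
  unfold pt
  fun_prop

/-- `Re (e^{iθ} h'(r e^{iθ}))` -/
noncomputable def vr (h : ℂ → ℂ) (r θ : ℝ) : ℝ := (exp ((θ : ℂ) * I) * deriv h (pt r θ)).re

theorem contOn_h {h : ℂ → ℂ} (hh : DifferentiableOn ℂ h Ext) :
    ContinuousOn (fun p : ℝ × ℝ => (h (pt p.1 p.2)).re) (Ioi 1 ×ˢ univ) := by
  refine Complex.continuous_re.comp_continuousOn (hh.continuousOn.comp continuous_pt.continuousOn ?_)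
  rintro ⟨r, θ⟩ hp
  exact pt_mem hp.1 θ

theorem contOn_vr {h : ℂ → ℂ} (hh : DifferentiableOn ℂ h Ext) :
    ContinuousOn (fun p : ℝ × ℝ => vr h p.1 p.2) (Ioi 1 ×ˢ univ) := by
  refine Complex.continuous_re.comp_continuousOn (ContinuousOn.mul (by fun_prop) ((hh.deriv isOpen_Ext).continuousOn.comp continuous_pt.continuousOn ?_))
  rintro ⟨r, θ⟩ hp
  exact pt_mem hp.1 θ

theorem hasDerivAt_re {h : ℂ → ℂ} (hh : DifferentiableOn ℂ h Ext) {r : ℝ} (hr : 1 < r) (θ : ℝ) :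
    HasDerivAt (fun r : ℝ => (h (pt r θ)).re) (vr h r θ) r := by
  have h1 : HasDerivAt h (deriv h (pt r θ)) (pt r θ) :=
    ((hh _ (pt_mem hr θ)).differentiableAt (isOpen_Ext.mem_nhds (pt_mem hr θ))).hasDerivAt
  have h2 : HasDerivAt (fun r : ℝ => pt r θ) (1 * exp ((θ : ℂ) * I)) r := by
    have h3 : HasDerivAt (fun s : ℝ => (s : ℂ)) 1 r := Complex.ofRealCLM.hasDerivAt
    exact h3.mul_const _
  have h3 : HasDerivAt (fun r : ℝ => h (pt r θ)) (deriv h (pt r θ) * (1 * exp ((θ : ℂ) * I))) r := h1.comp r h2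
  have h4 : HasDerivAt (fun r : ℝ => (h (pt r θ)).re) (deriv h (pt r θ) * (1 * exp ((θ : ℂ) * I))).re r :=
    Complex.reCLM.hasFDerivAt.comp_hasDerivAt r h3
  refine h4.congr_deriv ?_
  unfold vr
  congr 1
  ring

/-- Exponential of the square of `Re h` at radius `R`: pointwise in `θ`. -/
theorem pointwise {h : ℂ → ℂ} (hh : DifferentiableOn ℂ h Ext) {c R : ℝ} (hR : 1 < R) (hR2 : R ≤ 2)
    {G : ℝ → ℝ} (hG : ContinuousOn G (Icc R 2)) (θ : ℝ)
    (hb : ∀ r ∈ Icc R 2, Real.exp (c * (h (pt r θ)).re ^ 2) * (2 * |c| * |(h (pt r θ)).re|) ≤ G r) :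
    Real.exp (c * (h (pt R θ)).re ^ 2) ≤ Real.exp (c * (h (pt 2 θ)).re ^ 2) + ∫ r in R..2, G r * |vr h r θ| := by
  set F : ℝ → ℝ := fun r => Real.exp (c * (h (pt r θ)).re ^ 2) with hF
  have hFd : ∀ r ∈ Icc R 2, HasDerivAt F (Real.exp (c * (h (pt r θ)).re ^ 2) * (c * (2 * (h (pt r θ)).re * vr h r θ))) r := by
    intro r hr
    have h1 := hasDerivAt_re hh (lt_of_lt_of_le hR hr.1) θ
    have h2 : HasDerivAt (fun r => c * (h (pt r θ)).re ^ 2) (c * (2 * (h (pt r θ)).re * vr h r θ)) r := by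
      refine ((h1.pow 2).const_mul c).congr_deriv ?_
      norm_num
    exact h2.exp
  have hcv : ContinuousOn (fun r => vr h r θ) (Icc R 2) := by
    have h1 : ContinuousOn (fun r : ℝ => ((r, θ) : ℝ × ℝ)) (Icc R 2) := by fun_prop
    exact (contOn_vr hh).comp h1 fun r hr => ⟨lt_of_lt_of_le hR hr.1, mem_univ _⟩
  have hch : ContinuousOn (fun r => (h (pt r θ)).re) (Icc R 2) := by
    have h1 : ContinuousOn (fun r : ℝ => ((r, θ) : ℝ × ℝ)) (Icc R 2) := by fun_prop
    exact (contOn_h hh).comp h1 fun r hr => ⟨lt_of_lt_of_le hR hr.1, mem_univ _⟩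
  have hcd : ContinuousOn (fun r => Real.exp (c * (h (pt r θ)).re ^ 2) * (c * (2 * (h (pt r θ)).re * vr h r θ))) (Icc R 2) := by
    fun_prop
  have hint : IntervalIntegrable (fun r => Real.exp (c * (h (pt r θ)).re ^ 2) * (c * (2 * (h (pt r θ)).re * vr h r θ))) volume R 2 :=
    (hcd.mono (by rw [uIcc_of_le hR2])).intervalIntegrable
  have hftc := intervalIntegral.integral_eq_sub_of_hasDerivAt (a := R) (b := 2) (f := F)
    (fun r hr => hFd r (by rwa [uIcc_of_le hR2] at hr)) hint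
  have hint2 : IntervalIntegrable (fun r => G r * |vr h r θ|) volume R 2 :=
    ((hG.mul hcv.abs).mono (by rw [uIcc_of_le hR2])).intervalIntegrable
  have hle : -(∫ r in R..2, Real.exp (c * (h (pt r θ)).re ^ 2) * (c * (2 * (h (pt r θ)).re * vr h r θ))) ≤ ∫ r in R..2, G r * |vr h r θ| := by
    rw [← intervalIntegral.integral_neg]
    apply intervalIntegral.integral_mono_on hR2 hint.neg hint2
    intro r hr
    have h1 := hb r hr
    have h2 : -(Real.exp (c * (h (pt r θ)).re ^ 2) * (c * (2 * (h (pt r θ)).re * vr h r θ)))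
        ≤ Real.exp (c * (h (pt r θ)).re ^ 2) * (2 * |c| * |(h (pt r θ)).re|) * |vr h r θ| := by
      refine (neg_le_abs _).trans (le_of_eq ?_)
      rw [abs_mul, abs_mul, abs_mul, abs_mul, Real.abs_exp, abs_two]
      ring
    refine h2.trans ?_
    exact mul_le_mul_of_nonneg_right h1 (abs_nonneg _)
  have : F R = F 2 - ∫ r in R..2, Real.exp (c * (h (pt r θ)).re ^ 2) * (c * (2 * (h (pt r θ)).re * vr h r θ)) := by
    rw [hftc]; ring
  have h5 : Real.exp (c * (h (pt R θ)).re ^ 2) = F R := rfl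
  have h6 : Real.exp (c * (h (pt 2 θ)).re ^ 2) = F 2 := rfl
  rw [h5, h6, this]
  linarith

/-- Integrated form. -/
theorem integrated {h : ℂ → ℂ} (hh : DifferentiableOn ℂ h Ext) {c R : ℝ} (hR : 1 < R) (hR2 : R ≤ 2)
    {G B : ℝ → ℝ} (hG : ContinuousOn G (Icc R 2)) (hG0 : ∀ r ∈ Icc R 2, 0 ≤ G r)
    (hB : IntervalIntegrable (fun r => G r * B r) volume R 2)
    (hb : ∀ θ, ∀ r ∈ Icc R 2, Real.exp (c * (h (pt r θ)).re ^ 2) * (2 * |c| * |(h (pt r θ)).re|) ≤ G r)
    (hv : ∀ r ∈ Ioo R 2, ∫ θ in (0:ℝ)..(2 * Real.pi), |vr h r θ| ≤ B r) :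
    ∫ θ in (0:ℝ)..(2 * Real.pi), Real.exp (c * (h (pt R θ)).re ^ 2)
      ≤ (∫ θ in (0:ℝ)..(2 * Real.pi), Real.exp (c * (h (pt 2 θ)).re ^ 2)) + ∫ r in R..2, G r * B r := by
  have hpi : (0:ℝ) ≤ 2 * Real.pi := by positivity
  have hc1 : ∀ r : ℝ, 1 < r → Continuous fun θ : ℝ => Real.exp (c * (h (pt r θ)).re ^ 2) := by
    intro r hr
    have h1 : Continuous fun θ : ℝ => (h (pt r θ)).re := by
      rw [← continuousOn_univ]
      have h2 : ContinuousOn (fun θ : ℝ => ((r, θ) : ℝ × ℝ)) univ := by fun_prop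
      exact (contOn_h hh).comp h2 fun θ _ => ⟨hr, mem_univ _⟩
    fun_prop
  have hjoint : ContinuousOn (fun p : ℝ × ℝ => G p.1 * |vr h p.1 p.2|) (Icc R 2 ×ˢ univ) := by
    refine ContinuousOn.mul (hG.comp continuousOn_fst fun p hp => hp.1) ?_
    exact ((contOn_vr hh).mono fun p hp => ⟨lt_of_lt_of_le hR hp.1.1, mem_univ _⟩).abs
  have hprod : IntegrableOn (fun p : ℝ × ℝ => G p.1 * |vr h p.1 p.2|) (Icc R 2 ×ˢ Icc 0 (2 * Real.pi)) (volume.prod volume) := by
    apply ContinuousOn.integrableOn_compact (isCompact_Icc.prod isCompact_Icc)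
    exact hjoint.mono (prod_mono_right (subset_univ _))
  have hprod2 : IntegrableOn (fun p : ℝ × ℝ => G p.2 * |vr h p.2 p.1|) (Icc 0 (2 * Real.pi) ×ˢ Icc R 2) (volume.prod volume) := by
    apply ContinuousOn.integrableOn_compact (isCompact_Icc.prod isCompact_Icc)
    have h1 : ContinuousOn (fun p : ℝ × ℝ => ((p.2, p.1) : ℝ × ℝ)) (Icc 0 (2 * Real.pi) ×ˢ Icc R 2) := by fun_prop
    exact hjoint.comp h1 fun p hp => ⟨hp.2, mem_univ _⟩
  have hswap : ∫ θ in (0:ℝ)..(2 * Real.pi), ∫ r in R..2, G r * |vr h r θ| = ∫ r in R..2, ∫ θ in (0:ℝ)..(2 * Real.pi), G r * |vr h r θ| := by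
    apply intervalIntegral_intervalIntegral_swap
    rw [uIoc_of_le hpi, uIoc_of_le hR2]
    exact hprod2.mono_set (prod_mono Ioc_subset_Icc_self Ioc_subset_Icc_self)
  have hIθ : IntervalIntegrable (fun θ => ∫ r in R..2, G r * |vr h r θ|) volume 0 (2 * Real.pi) := by
    rw [intervalIntegrable_iff_integrableOn_Ioc_of_le hpi]
    have h1 : IntegrableOn (fun θ => ∫ r in Ioc R 2, G r * |vr h r θ|) (Ioc 0 (2 * Real.pi)) := by
      have h2 : Integrable (fun p : ℝ × ℝ => G p.2 * |vr h p.2 p.1|) ((volume.restrict (Ioc 0 (2 * Real.pi))).prod (volume.restrict (Ioc R 2))) := by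
        rw [Measure.prod_restrict]
        exact hprod2.mono_set (prod_mono Ioc_subset_Icc_self Ioc_subset_Icc_self)
      exact h2.integral_prod_left
    refine h1.congr_fun (fun θ _ => ?_) measurableSet_Ioc
    simp only
    rw [intervalIntegral.integral_of_le hR2]
  have hIr : IntervalIntegrable (fun r => ∫ θ in (0:ℝ)..(2 * Real.pi), G r * |vr h r θ|) volume R 2 := by
    rw [intervalIntegrable_iff_integrableOn_Ioc_of_le hR2]
    have h1 : IntegrableOn (fun r => ∫ θ in Ioc 0 (2 * Real.pi), G r * |vr h r θ|) (Ioc R 2) := by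
      have h2 : Integrable (fun p : ℝ × ℝ => G p.1 * |vr h p.1 p.2|) ((volume.restrict (Ioc R 2)).prod (volume.restrict (Ioc 0 (2 * Real.pi)))) := by
        rw [Measure.prod_restrict]
        exact hprod.mono_set (prod_mono Ioc_subset_Icc_self Ioc_subset_Icc_self)
      exact h2.integral_prod_left
    refine h1.congr_fun (fun r _ => ?_) measurableSet_Ioc
    simp only
    rw [intervalIntegral.integral_of_le hpi]
  calc ∫ θ in (0:ℝ)..(2 * Real.pi), Real.exp (c * (h (pt R θ)).re ^ 2)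
      ≤ ∫ θ in (0:ℝ)..(2 * Real.pi), (Real.exp (c * (h (pt 2 θ)).re ^ 2) + ∫ r in R..2, G r * |vr h r θ|) := by
        apply intervalIntegral.integral_mono_on hpi ((hc1 R hR).intervalIntegrable _ _)
          (((hc1 2 one_lt_two).intervalIntegrable _ _).add hIθ)
        intro θ _
        exact pointwise hh hR hR2 hG θ (hb θ)
    _ = (∫ θ in (0:ℝ)..(2 * Real.pi), Real.exp (c * (h (pt 2 θ)).re ^ 2)) + ∫ θ in (0:ℝ)..(2 * Real.pi), ∫ r in R..2, G r * |vr h r θ| :=
        intervalIntegral.integral_add ((hc1 2 one_lt_two).intervalIntegrable _ _) hIθ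
    _ = (∫ θ in (0:ℝ)..(2 * Real.pi), Real.exp (c * (h (pt 2 θ)).re ^ 2)) + ∫ r in R..2, ∫ θ in (0:ℝ)..(2 * Real.pi), G r * |vr h r θ| := by
        rw [hswap]
    _ ≤ _ := by
        gcongr
        apply intervalIntegral.integral_mono_on_of_le_Ioo hR2 hIr hB
        intro r hr
        rw [intervalIntegral.integral_const_mul]
        exact mul_le_mul_of_nonneg_left (hv r hr) (hG0 r (Ioo_subset_Icc_self hr))

end Pool.Agent.TH325.BVM
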