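import Mathlib
import Pool.Agent.TH325.BVM.C

/-! The imaginary part, and bounds at a fixed radius. -/

set_option autoImplicit false
open Complex Filter Topology Set Metric MeasureTheory

namespace Pool.Agent.TH325.BVM

/-- `h` has mean value `0` on circles. -/
theorem mean_zero {h : ℂ → ℂ} (hh : DifferentiableOn ℂ h Ext)
    (h0 : Tendsto h (Bornology.cobounded ℂ) (𝓝 0)) {R : ℝ} (hR : 1 < R) :
    ∫ θ in (0:ℝ)..(2 * Real.pi), h (pt R θ) = 0 := by
  have hR0 : 0 < R := by linarith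
  have hcirc : ∀ ρ : ℝ, R ≤ ρ → (∮ z in C(0, ρ), (z - 0)⁻¹ • h z) = ∮ z in C(0, R), (z - 0)⁻¹ • h z := by
    intro ρ hρ
    apply Complex.circleIntegral_sub_center_inv_smul_eq_of_differentiable_on_annulus_off_countable hR0 hρ countable_empty
    · apply hh.continuousOn.mono
      intro z hz
      have h1 : ¬ ‖z‖ < R := by simpa [mem_ball_zero_iff] using hz.2
      show 1 < ‖z‖
      linarith [not_lt.1 h1]
    · intro z hz
      have h1 : ¬ ‖z‖ ≤ R := by simpa [mem_closedBall_zero_iff] using hz.1.2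
      have h2 : z ∈ Ext := by
        show 1 < ‖z‖
        linarith [not_le.1 h1]
      exact (hh z h2).differentiableAt (isOpen_Ext.mem_nhds h2)
  have hsmall : ∀ ε : ℝ, 0 < ε → ‖∮ z in C(0, R), (z - 0)⁻¹ • h z‖ ≤ 2 * Real.pi * ε := by
    intro ε hε
    have h1 : ∀ᶠ z in Bornology.cobounded ℂ, ‖h z‖ < ε := by
      have := h0.norm
      rw [norm_zero] at this
      exact this.eventually (gt_mem_nhds hε)
    rw [← comap_norm_atTop, eventually_comap, eventually_atTop] at h1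
    obtain ⟨M, hM⟩ := h1
    set ρ : ℝ := max R M with hρ
    have hρ0 : 0 < ρ := lt_of_lt_of_le hR0 (le_max_left _ _)
    rw [← hcirc ρ (le_max_left _ _)]
    have h2 := circleIntegral.norm_integral_le_of_norm_le_const (f := fun z => (z - 0)⁻¹ • h z) (c := 0) (C := ρ⁻¹ * ε) hρ0.le (by
      intro z hz
      rw [mem_sphere_zero_iff_norm] at hz
      rw [norm_smul, norm_inv, sub_zero, hz]
      have := (hM ρ (le_max_right _ _) z hz).le
      gcongr)
    refine h2.trans (le_of_eq ?_)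
    field_simp
  have hz : (∮ z in C(0, R), (z - 0)⁻¹ • h z) = 0 := by
    rw [← norm_eq_zero]
    apply le_antisymm _ (norm_nonneg _)
    apply le_of_forall_pos_le_add
    intro ε hε
    have := hsmall (ε / (2 * Real.pi)) (by positivity)
    rw [mul_div_cancel₀ _ (by positivity)] at this
    linarith
  have he : (∮ z in C(0, R), (z - 0)⁻¹ • h z) = I * ∫ θ in (0:ℝ)..(2 * Real.pi), h (pt R θ) := by
    unfold circleIntegral
    rw [← intervalIntegral.integral_const_mul]
    apply intervalIntegral.integral_congr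
    intro θ _
    simp only [deriv_circleMap, sub_zero, smul_eq_mul]
    have h1 : circleMap 0 R θ = pt R θ := by simp [circleMap, pt]
    have h2 : pt R θ ≠ 0 := by
      have := pt_mem hR θ
      intro h
      rw [h] at this
      have : (1:ℝ) < ‖(0:ℂ)‖ := this
      simp at this
      linarith
    rw [h1]
    field_simp
  rw [he] at hz
  rcases mul_eq_zero.1 hz with h1 | h1
  · exact absurd h1 I_ne_zero
  · exact h1

/-- `Re (z h'(z))` at `z = r e^{iθ}`. -/
noncomputable def ur (h : ℂ → ℂ) (r θ : ℝ) : ℝ := (pt r θ * deriv h (pt r θ)).re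

theorem cont_ur {h : ℂ → ℂ} (hh : DifferentiableOn ℂ h Ext) {r : ℝ} (hr : 1 < r) : Continuous fun θ => ur h r θ := by
  have h1 : Continuous fun θ : ℝ => pt r θ := by unfold pt; fun_prop
  have h2 : Continuous fun θ : ℝ => deriv h (pt r θ) := by
    rw [← continuousOn_univ]
    exact (hh.deriv isOpen_Ext).continuousOn.comp h1.continuousOn fun θ _ => pt_mem hr θ
  exact Complex.continuous_re.comp (h1.mul h2)

theorem ur_eq (h : ℂ → ℂ) (r θ : ℝ) : ur h r θ = r * vr h r θ := by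
  unfold ur vr
  have : pt r θ * deriv h (pt r θ) = (r : ℂ) * (exp ((θ : ℂ) * I) * deriv h (pt r θ)) := by
    rw [← mul_assoc]; rfl
  rw [this, re_ofReal_mul]

theorem hasDerivAt_im {h : ℂ → ℂ} (hh : DifferentiableOn ℂ h Ext) {r : ℝ} (hr : 1 < r) (θ : ℝ) :
    HasDerivAt (fun θ : ℝ => (h (pt r θ)).im) (ur h r θ) θ := by
  have h1 : HasDerivAt h (deriv h (pt r θ)) (pt r θ) :=
    ((hh _ (pt_mem hr θ)).differentiableAt (isOpen_Ext.mem_nhds (pt_mem hr θ))).hasDerivAt
  have h2 : HasDerivAt (fun θ : ℝ => pt r θ) ((r : ℂ) * (exp ((θ : ℂ) * I) * (1 * I))) θ := by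
    have h3 : HasDerivAt (fun s : ℝ => (s : ℂ)) 1 θ := Complex.ofRealCLM.hasDerivAt
    exact ((h3.mul_const I).cexp).const_mul _
  have h3 : HasDerivAt (fun θ : ℝ => h (pt r θ)) (deriv h (pt r θ) * ((r : ℂ) * (exp ((θ : ℂ) * I) * (1 * I)))) θ := h1.comp θ h2
  have h4 : HasDerivAt (fun θ : ℝ => (h (pt r θ)).im) (deriv h (pt r θ) * ((r : ℂ) * (exp ((θ : ℂ) * I) * (1 * I)))).im θ :=
    Complex.imCLM.hasFDerivAt.comp_hasDerivAt θ h3
  refine h4.congr_deriv ?_
  have : deriv h (pt r θ) * ((r : ℂ) * (exp ((θ : ℂ) * I) * (1 * I))) = (pt r θ * deriv h (pt r θ)) * I := by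
    unfold pt; ring
  rw [this, mul_I_im]
  rfl

/-- Bound of the imaginary part by the total variation. -/
theorem im_le {h : ℂ → ℂ} (hh : DifferentiableOn ℂ h Ext)
    (h0 : Tendsto h (Bornology.cobounded ℂ) (𝓝 0)) {R : ℝ} (hR : 1 < R) {θ : ℝ} (hθ : θ ∈ Icc 0 (2 * Real.pi)) :
    |(h (pt R θ)).im| ≤ ∫ t in (0:ℝ)..(2 * Real.pi), |ur h R t| := by
  have hpi : (0:ℝ) ≤ 2 * Real.pi := by positivity
  have hpi0 : (0:ℝ) < 2 * Real.pi := by positivity
  have hcu := (cont_ur hh hR).abs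
  set T : ℝ := ∫ t in (0:ℝ)..(2 * Real.pi), |ur h R t| with hT
  have hdiff : ∀ a b : ℝ, a ∈ Icc 0 (2 * Real.pi) → b ∈ Icc 0 (2 * Real.pi) → a ≤ b →
      |(h (pt R b)).im - (h (pt R a)).im| ≤ T := by
    intro a b ha hb hab
    have h1 := intervalIntegral.integral_eq_sub_of_hasDerivAt (a := a) (b := b) (f := fun θ => (h (pt R θ)).im)
      (fun t _ => hasDerivAt_im hh hR t) ((cont_ur hh hR).intervalIntegrable _ _)
    have h2 : (h (pt R b)).im - (h (pt R a)).im = ∫ t in a..b, ur h R t := h1.symm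
    rw [h2]
    refine (intervalIntegral.abs_integral_le_integral_abs hab).trans ?_
    apply intervalIntegral.integral_mono_interval ha.1 hab hb.2
    · exact Eventually.of_forall fun t => abs_nonneg _
    · exact hcu.intervalIntegrable _ _
  have hdiff2 : ∀ t ∈ Icc 0 (2 * Real.pi), |(h (pt R θ)).im - (h (pt R t)).im| ≤ T := by
    intro t ht
    rcases le_total t θ with h1 | h1
    · exact hdiff t θ ht hθ h1
    · rw [abs_sub_comm]
      exact hdiff θ t hθ ht h1
  have hch : Continuous fun t : ℝ => h (pt R t) := by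
    rw [← continuousOn_univ]
    refine hh.continuousOn.comp (Continuous.continuousOn ?_) fun θ _ => pt_mem hR θ
    unfold pt; fun_prop
  have hmean : ∫ t in (0:ℝ)..(2 * Real.pi), (h (pt R t)).im = 0 := by
    have h1 := mean_zero hh h0 hR
    have h2 : (∫ t in (0:ℝ)..(2 * Real.pi), h (pt R t)).im = ∫ t in (0:ℝ)..(2 * Real.pi), (h (pt R t)).im := by
      have := Complex.imCLM.intervalIntegral_comp_comm (hch.intervalIntegrable (μ := volume) 0 (2 * Real.pi))
      exact this.symm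
    rw [← h2, h1]
    simp
  have h3 : ∫ t in (0:ℝ)..(2 * Real.pi), ((h (pt R θ)).im - (h (pt R t)).im) = 2 * Real.pi * (h (pt R θ)).im := by
    have hci : Continuous fun t : ℝ => (h (pt R t)).im := Complex.continuous_im.comp hch
    rw [intervalIntegral.integral_sub (continuous_const.intervalIntegrable _ _) (hci.intervalIntegrable _ _), hmean]
    simp
  have h4 : |∫ t in (0:ℝ)..(2 * Real.pi), ((h (pt R θ)).im - (h (pt R t)).im)| ≤ T * |2 * Real.pi - 0| := by
    rw [← Real.norm_eq_abs]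
    apply intervalIntegral.norm_integral_le_of_norm_le_const
    intro t ht
    rw [uIoc_of_le hpi] at ht
    exact hdiff2 t ⟨ht.1.le, ht.2⟩
  rw [h3, abs_mul, sub_zero, abs_of_pos hpi0, mul_comm] at h4
  exact le_of_mul_le_mul_right h4 hpi0

/-- Bounds for `Re h` in polar coordinates. -/
theorem abs_re_le {ψ h : ℂ → ℂ} (hd : DifferentiableOn ℂ ψ Ext) (hi : InjOn ψ Ext)
    (hb : ∃ b : ℂ, Tendsto (fun z => ψ z - z) (Bornology.cobounded ℂ) (𝓝 b))
    (hh : DifferentiableOn ℂ h Ext) (he : ∀ z ∈ Ext, exp (h z) = deriv ψ z)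
    {r : ℝ} (hr1 : 1 < r) (hr2 : r ≤ 2) (θ : ℝ) : |(h (pt r θ)).re| ≤ -Real.log (r - 1) + 4 := by
  have h1 := re_le hd hi hb he (pt_mem hr1 θ)
  have h2 := re_ge hd hi hb hh he (Complex.norm_exp_ofReal_mul_I θ) hr1 hr2
  have h3 : exp ((θ:ℂ) * I) * (r : ℂ) = pt r θ := by unfold pt; ring
  rw [h3] at h2
  rw [norm_pt (by linarith)] at h1
  rw [abs_le]
  refine ⟨by linarith, h1.trans ?_⟩
  have h4 : r ^ 2 / (r ^ 2 - 1) = (r ^ 2 / (r + 1)) / (r - 1) := by
    have : r - 1 ≠ 0 := by linarith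
    have h5 : r + 1 ≠ 0 := by linarith
    have h6 : r ^ 2 - 1 ≠ 0 := by nlinarith
    field_simp
    ring
  have h5 : 0 < r ^ 2 / (r + 1) := by positivity
  rw [h4, Real.log_div h5.ne' (by linarith)]
  have h6 : r ^ 2 / (r + 1) ≤ 4 := by
    rw [div_le_iff₀ (by linarith)]
    nlinarith
  have h7 : Real.log (r ^ 2 / (r + 1)) ≤ 4 := (Real.log_le_sub_one_of_pos h5).trans (by linarith)
  linarith

theorem lam_ge {R : ℝ} (hR : 1 < R) : -Real.log (R - 1) - 1 ≤ Real.log (R ^ 2 / (R ^ 2 - 1)) := by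
  have h4 : R ^ 2 / (R ^ 2 - 1) = (R ^ 2 / (R + 1)) / (R - 1) := by
    have : R - 1 ≠ 0 := by linarith
    have h5 : R + 1 ≠ 0 := by linarith
    have h6 : R ^ 2 - 1 ≠ 0 := by nlinarith
    field_simp
    ring
  have h5 : 1 / 2 ≤ R ^ 2 / (R + 1) := by
    rw [le_div_iff₀ (by linarith)]
    nlinarith
  rw [h4, Real.log_div (by linarith) (by linarith)]
  have h6 : Real.log (1 / 2) ≤ Real.log (R ^ 2 / (R + 1)) := Real.log_le_log (by norm_num) h5
  have h7 : -1 ≤ Real.log (1 / 2) := by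
    rw [one_div, Real.log_inv]
    linarith [Real.log_two_lt_d9]
  linarith

/-- The main bound for the real part. -/
theorem main_re {ψ h : ℂ → ℂ} (hd : DifferentiableOn ℂ ψ Ext) (hi : InjOn ψ Ext)
    (hb : ∃ b : ℂ, Tendsto (fun z => ψ z - z) (Bornology.cobounded ℂ) (𝓝 b))
    (hh : DifferentiableOn ℂ h Ext) (he : ∀ z ∈ Ext, exp (h z) = deriv ψ z)
    {a s κ K R : ℝ} (ha : 0 < a) (ha1 : a < 1) (hs1 : s ≤ 1) (hκ : s + κ < 1) (hK : 0 ≤ K) (hR : 1 < R) (hR2 : R ≤ 2)
    (hL1 : 1 ≤ Real.log (R ^ 2 / (R ^ 2 - 1)))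
    (hs : a * (1 + 5 / Real.log (R ^ 2 / (R ^ 2 - 1))) ≤ s)
    (hv : ∀ r ∈ Ioo R 2, ∫ θ in (0:ℝ)..(2 * Real.pi), |vr h r θ| ≤ K * (r - 1) ^ (-κ)) :
    ∫ θ in (0:ℝ)..(2 * Real.pi), Real.exp (a / Real.log (R ^ 2 / (R ^ 2 - 1)) * (h (pt R θ)).re ^ 2)
      ≤ 2 * Real.pi * Real.exp 16 + 2 * Real.exp 4 * K / (1 - s - κ) := by
  set Λ : ℝ := Real.log (R ^ 2 / (R ^ 2 - 1)) with hΛ
  have hΛ0 : 0 < Λ := by linarith
  have hlam := lam_ge hR
  rw [← hΛ] at hlam
  have hs0 : 0 ≤ s := by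
    refine le_trans ?_ hs
    positivity
  have hcpos : 0 ≤ a / Λ := by positivity
  have hvb : ∀ θ, ∀ r ∈ Icc R 2, |(h (pt r θ)).re| ≤ -Real.log (r - 1) + 4 ∧ -Real.log (r - 1) + 4 ≤ Λ + 5 ∧ 0 ≤ -Real.log (r - 1) := by
    intro θ r hr
    refine ⟨abs_re_le hd hi hb hh he (lt_of_lt_of_le hR hr.1) hr.2 θ, ?_, ?_⟩
    · have : Real.log (R - 1) ≤ Real.log (r - 1) := Real.log_le_log (by linarith) (by linarith [hr.1])
      linarith
    · have : Real.log (r - 1) ≤ 0 := Real.log_nonpos (by linarith [hr.1]) (by linarith [hr.2])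
      linarith
  set G : ℝ → ℝ := fun r => 2 * Real.exp 4 * (r - 1) ^ (-s) with hG
  have hpos : ∀ r ∈ Icc R 2, 0 < r - 1 := fun r hr => by linarith [hr.1]
  have hGc : ContinuousOn G (Icc R 2) := by
    apply ContinuousOn.mul continuousOn_const
    apply ContinuousOn.rpow_const (by fun_prop)
    intro r hr
    exact Or.inl (hpos r hr).ne'
  have hG0 : ∀ r ∈ Icc R 2, 0 ≤ G r := fun r hr => by
    have := Real.rpow_nonneg (hpos r hr).le (-s)
    simp only [hG]; positivity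
  have hGb : ∀ θ, ∀ r ∈ Icc R 2, Real.exp (a / Λ * (h (pt r θ)).re ^ 2) * (2 * |a / Λ| * |(h (pt r θ)).re|) ≤ G r := by
    intro θ r hr
    obtain ⟨h1, h2, h3⟩ := hvb θ r hr
    set v : ℝ := |(h (pt r θ)).re| with hv
    have hv0 : 0 ≤ v := abs_nonneg _
    rw [abs_of_nonneg hcpos, ← sq_abs, ← hv]
    have e1 : a / Λ * (Λ + 5) ≤ s := by
      have : a / Λ * (Λ + 5) = a * (1 + 5 / Λ) := by field_simp
      rw [this]; exact hs
    have e2 : a / Λ * v ^ 2 ≤ s * (-Real.log (r - 1) + 4) := by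
      calc a / Λ * v ^ 2 = a / Λ * v * v := by ring
        _ ≤ a / Λ * (Λ + 5) * (-Real.log (r - 1) + 4) := by
            have : v ≤ Λ + 5 := h1.trans h2
            gcongr
        _ ≤ s * (-Real.log (r - 1) + 4) := by
            have : 0 ≤ -Real.log (r - 1) + 4 := by linarith
            gcongr
    have e3 : 2 * (a / Λ) * v ≤ 2 := by
      calc 2 * (a / Λ) * v ≤ 2 * (a / Λ) * (Λ + 5) := by
            have : v ≤ Λ + 5 := h1.trans h2
            gcongr
        _ = 2 * (a / Λ * (Λ + 5)) := by ring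
        _ ≤ 2 * 1 := by linarith
        _ = 2 := by ring
    have e4 : Real.exp (s * (-Real.log (r - 1) + 4)) ≤ Real.exp 4 * (r - 1) ^ (-s) := by
      rw [Real.rpow_def_of_pos (hpos r hr), ← Real.exp_add]
      apply Real.exp_le_exp.2
      nlinarith
    calc Real.exp (a / Λ * v ^ 2) * (2 * (a / Λ) * v) ≤ Real.exp (s * (-Real.log (r - 1) + 4)) * 2 := by
          gcongr
      _ ≤ Real.exp 4 * (r - 1) ^ (-s) * 2 := by gcongr
      _ = G r := by simp only [hG]; ring
  have hBc : ContinuousOn (fun r => G r * (K * (r - 1) ^ (-κ))) (Icc R 2) := by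
    refine hGc.mul (continuousOn_const.mul ?_)
    apply ContinuousOn.rpow_const (by fun_prop)
    intro r hr
    exact Or.inl (hpos r hr).ne'
  have hmain := integrated hh hR hR2 hGc hG0 (B := fun r => K * (r - 1) ^ (-κ))
    ((hBc.mono (by rw [uIcc_of_le hR2])).intervalIntegrable) hGb hv
  refine hmain.trans ?_
  have hpi : (0:ℝ) ≤ 2 * Real.pi := by positivity
  have hfirst : ∫ θ in (0:ℝ)..(2 * Real.pi), Real.exp (a / Λ * (h (pt 2 θ)).re ^ 2) ≤ 2 * Real.pi * Real.exp 16 := by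
    have h1 : ∫ θ in (0:ℝ)..(2 * Real.pi), Real.exp (a / Λ * (h (pt 2 θ)).re ^ 2) ≤ ∫ θ in (0:ℝ)..(2 * Real.pi), Real.exp 16 := by
      apply intervalIntegral.integral_mono_on hpi
      · have h1 : Continuous fun θ : ℝ => (h (pt 2 θ)).re := by
          rw [← continuousOn_univ]
          have h2 : ContinuousOn (fun θ : ℝ => (((2:ℝ), θ) : ℝ × ℝ)) univ := by fun_prop
          exact (contOn_h hh).comp h2 fun θ _ => ⟨(one_lt_two : (1:ℝ) < 2), mem_univ _⟩
        have h2 : Continuous fun θ : ℝ => Real.exp (a / Λ * (h (pt 2 θ)).re ^ 2) := by fun_prop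
        exact h2.intervalIntegrable _ _
      · simp
      · intro θ _
        apply Real.exp_le_exp.2
        have h2 := abs_re_le hd hi hb hh he one_lt_two le_rfl θ
        have h3 : (2:ℝ) - 1 = 1 := by norm_num
        rw [h3, Real.log_one] at h2
        have h4 : (h (pt 2 θ)).re ^ 2 ≤ 16 := by
          rw [← sq_abs]
          nlinarith [abs_nonneg (h (pt 2 θ)).re]
        have h5 : a / Λ ≤ 1 := by
          rw [div_le_one hΛ0]; linarith
        calc a / Λ * (h (pt 2 θ)).re ^ 2 ≤ 1 * 16 := by gcongr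
          _ = 16 := by norm_num
    refine h1.trans (le_of_eq ?_)
    simp
  have hsecond : ∫ r in R..2, G r * (K * (r - 1) ^ (-κ)) ≤ 2 * Real.exp 4 * K / (1 - s - κ) := by
    have h1 : ∫ r in R..2, G r * (K * (r - 1) ^ (-κ)) = 2 * Real.exp 4 * K * ∫ r in R..2, (r - 1) ^ (-(s + κ)) := by
      rw [← intervalIntegral.integral_const_mul]
      apply intervalIntegral.integral_congr
      intro r hr
      rw [uIcc_of_le hR2] at hr
      simp only [hG]
      have h2 : (r - 1) ^ (-(s + κ)) = (r - 1) ^ (-s) * (r - 1) ^ (-κ) := by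
        rw [← Real.rpow_add (hpos r hr)]; congr 1; ring
      rw [h2]; ring
    rw [h1]
    have h2 : ∫ r in R..2, (r - 1) ^ (-(s + κ)) ≤ 1 / (1 - s - κ) := by
      have h3 : ∫ r in R..2, (r - 1) ^ (-(s + κ)) = ∫ x in (R - 1)..(2 - 1), x ^ (-(s + κ)) :=
        intervalIntegral.integral_comp_sub_right (fun x => x ^ (-(s + κ))) 1
      rw [h3, integral_rpow (Or.inl (by linarith))]
      have h4 : -(s + κ) + 1 = 1 - s - κ := by ring
      rw [h4]
      have h5 : (0:ℝ) < 1 - s - κ := by linarith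
      apply div_le_div_of_nonneg_right _ h5.le
      have h6 : ((2:ℝ) - 1) ^ (1 - s - κ) = 1 := by norm_num
      have h7 : 0 ≤ (R - 1) ^ (1 - s - κ) := Real.rpow_nonneg (by linarith) _
      linarith
    calc 2 * Real.exp 4 * K * ∫ r in R..2, (r - 1) ^ (-(s + κ)) ≤ 2 * Real.exp 4 * K * (1 / (1 - s - κ)) := by gcongr
      _ = _ := by ring
  linarith

end Pool.Agent.TH325.BVM
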