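import Mathlib
import Pool.Agent.TH325.BVM.D

/-! Final assembly. -/

set_option autoImplicit false
open Complex Filter Topology Set Metric MeasureTheory

namespace Pool.Agent.TH325.BVM

/-- The derivative of `h = log ψ'`. -/
theorem logder {ψ h : ℂ → ℂ} (hh : DifferentiableOn ℂ h Ext) (he : ∀ z ∈ Ext, exp (h z) = deriv ψ z) {z : ℂ} (hz : z ∈ Ext) :
    z * deriv (deriv ψ) z / deriv ψ z = z * deriv h z := by
  rw [exp_deriv hh he hz, ← he z hz, ← mul_assoc, mul_div_assoc, div_self (exp_ne_zero _), mul_one]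

theorem cont_rot {ψ h : ℂ → ℂ} (hh : DifferentiableOn ℂ h Ext) (he : ∀ z ∈ Ext, exp (h z) = deriv ψ z) {r : ℝ} (hr : 1 < r) :
    (fun θ : ℝ => |(1 + pt r θ * deriv (deriv ψ) (pt r θ) / deriv ψ (pt r θ)).re|) = fun θ => |1 + ur h r θ| := by
  funext θ
  rw [logder hh he (pt_mem hr θ)]
  simp [ur]

/-- `∫ |Re z h'| ≤ (boundary rotation) + 2π`. -/
theorem ur_le {ψ h : ℂ → ℂ} (hh : DifferentiableOn ℂ h Ext) (he : ∀ z ∈ Ext, exp (h z) = deriv ψ z) {r : ℝ} (hr : 1 < r) :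
    ∫ θ in (0:ℝ)..(2 * Real.pi), |ur h r θ|
      ≤ (∫ θ in (0:ℝ)..(2 * Real.pi), |(1 + pt r θ * deriv (deriv ψ) (pt r θ) / deriv ψ (pt r θ)).re|) + 2 * Real.pi := by
  have hpi : (0:ℝ) ≤ 2 * Real.pi := by positivity
  rw [cont_rot hh he hr]
  have hc := cont_ur hh hr
  have h1 : ∫ θ in (0:ℝ)..(2 * Real.pi), |ur h r θ| ≤ ∫ θ in (0:ℝ)..(2 * Real.pi), (|1 + ur h r θ| + 1) := by
    apply intervalIntegral.integral_mono_on hpi (hc.abs.intervalIntegrable _ _)
    · exact (((continuous_const.add hc).abs).add continuous_const).intervalIntegrable _ _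
    · intro θ _
      have := abs_sub (1 + ur h r θ) 1
      rw [add_sub_cancel_left, abs_one] at this
      exact this
  have hc1 : Continuous fun θ : ℝ => |1 + ur h r θ| := (continuous_const.add hc).abs
  rw [intervalIntegral.integral_add (hc1.intervalIntegrable _ _) (by simp)] at h1
  simpa using h1

/-- `∫ |∂_r Re h| ≤ ∫ |Re z h'|`. -/
theorem vr_le {h : ℂ → ℂ} (hh : DifferentiableOn ℂ h Ext) {r : ℝ} (hr : 1 < r) :
    ∫ θ in (0:ℝ)..(2 * Real.pi), |vr h r θ| ≤ ∫ θ in (0:ℝ)..(2 * Real.pi), |ur h r θ| := by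
  have hpi : (0:ℝ) ≤ 2 * Real.pi := by positivity
  have hc := cont_ur hh hr
  have hcv : Continuous fun θ => vr h r θ := by
    have : (fun θ => vr h r θ) = fun θ => r⁻¹ * ur h r θ := by
      funext θ
      rw [ur_eq, ← mul_assoc, inv_mul_cancel₀ (by linarith), one_mul]
    rw [this]
    exact continuous_const.mul hc
  apply intervalIntegral.integral_mono_on hpi (hcv.abs.intervalIntegrable _ _) (hc.abs.intervalIntegrable _ _)
  intro θ _
  rw [ur_eq, abs_mul, abs_of_pos (by linarith : (0:ℝ) < r)]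
  nlinarith [abs_nonneg (vr h r θ)]

/-- `Λ → ∞` as `R → 1`. -/
theorem lam_large (M : ℝ) : ∃ R₀ : ℝ, 1 < R₀ ∧ R₀ ≤ 2 ∧ ∀ R : ℝ, 1 < R → R < R₀ → M ≤ Real.log (R ^ 2 / (R ^ 2 - 1)) := by
  refine ⟨1 + min 1 (Real.exp (-(M + 1))), by
    have : 0 < min 1 (Real.exp (-(M + 1))) := lt_min one_pos (Real.exp_pos _)
    linarith, by
    have : min 1 (Real.exp (-(M + 1))) ≤ 1 := min_le_left _ _
    linarith, ?_⟩
  intro R h1 h2
  have h3 := lam_ge h1
  have h4 : R - 1 ≤ Real.exp (-(M + 1)) := by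
    have : min 1 (Real.exp (-(M + 1))) ≤ Real.exp (-(M + 1)) := min_le_right _ _
    linarith
  have h5 : Real.log (R - 1) ≤ -(M + 1) := by
    rw [← Real.log_exp (-(M + 1))]
    exact Real.log_le_log (by linarith) h4
  linarith

theorem half_mean {x : ℝ} {C : ℝ} (h : x ≤ C) : 1 / (2 * Real.pi) * x ≤ 1 / (2 * Real.pi) * C := by
  have : 0 ≤ 1 / (2 * Real.pi) := by positivity
  exact mul_le_mul_of_nonneg_left h this

/-- Part two: the real part, rotation at most `K (r-1)^(-κ)`, `a + κ < 1`. -/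
theorem part_two (a κ K : ℝ) (ha : 0 < a) (hκ : 0 ≤ κ) (haκ : a + κ < 1) :
    ∃ C : ℝ, ∃ R₀ : ℝ, 1 < R₀ ∧ ∀ R : ℝ, 1 < R → R < R₀ → ∀ ψ h : ℂ → ℂ,
      DifferentiableOn ℂ ψ Ext → InjOn ψ Ext →
      (∃ b : ℂ, Tendsto (fun z => ψ z - z) (Bornology.cobounded ℂ) (𝓝 b)) →
      DifferentiableOn ℂ h Ext → (∀ z ∈ Ext, exp (h z) = deriv ψ z) →
      (∀ r : ℝ, 1 < r → r < 2 → ∫ θ in (0:ℝ)..(2 * Real.pi),
        |(1 + pt r θ * deriv (deriv ψ) (pt r θ) / deriv ψ (pt r θ)).re| ≤ K * (r - 1) ^ (-κ)) →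
      1 / (2 * Real.pi) * ∫ θ in (0:ℝ)..(2 * Real.pi),
        Real.exp (a / Real.log (R ^ 2 / (R ^ 2 - 1)) * (h (pt R θ)).re ^ 2) ≤ C := by
  set s : ℝ := (1 + a - κ) / 2 with hs
  have hs1 : s ≤ 1 := by rw [hs]; linarith
  have hsκ : s + κ < 1 := by rw [hs]; linarith
  have has : a < s := by rw [hs]; linarith
  obtain ⟨R₀, h1, h2, h3⟩ := lam_large (max 1 (5 * a / (s - a)))
  set K' : ℝ := |K| + 2 * Real.pi with hK'
  have hK'0 : 0 ≤ K' := by positivity
  refine ⟨1 / (2 * Real.pi) * (2 * Real.pi * Real.exp 16 + 2 * Real.exp 4 * K' / (1 - s - κ)), R₀, h1, ?_⟩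
  intro R hR1 hR2 ψ h hd hi hb hh he hrot
  have hL := h3 R hR1 hR2
  have hL1 : 1 ≤ Real.log (R ^ 2 / (R ^ 2 - 1)) := (le_max_left _ _).trans hL
  have hL2 : 5 * a / (s - a) ≤ Real.log (R ^ 2 / (R ^ 2 - 1)) := (le_max_right _ _).trans hL
  apply half_mean
  refine main_re hd hi hb hh he ha (by linarith) hs1 hsκ hK'0 hR1 (by linarith) hL1 ?_ ?_
  · have h5 : 0 < s - a := by linarith
    rw [div_le_iff₀ h5] at hL2
    have h6 : 0 < Real.log (R ^ 2 / (R ^ 2 - 1)) := by linarith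
    have h7 : a * (5 / Real.log (R ^ 2 / (R ^ 2 - 1))) ≤ s - a := by
      rw [mul_div_assoc', div_le_iff₀ h6]
      linarith
    linarith
  · intro r hr
    have h4 := (vr_le hh (hR1.trans hr.1)).trans (ur_le hh he (hR1.trans hr.1))
    have h5 := hrot r (hR1.trans hr.1) hr.2
    have hr1 : 0 < r - 1 := by linarith [hr.1]
    have h6 : 1 ≤ (r - 1) ^ (-κ) := by
      apply Real.one_le_rpow_of_pos_of_le_one_of_nonpos hr1 (by linarith [hr.2]) (by linarith)
    calc _ ≤ _ := h4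
      _ ≤ K * (r - 1) ^ (-κ) + 2 * Real.pi := by linarith
      _ ≤ |K| * (r - 1) ^ (-κ) + 2 * Real.pi * (r - 1) ^ (-κ) := by
          have h7 : K * (r - 1) ^ (-κ) ≤ |K| * (r - 1) ^ (-κ) := by
            apply mul_le_mul_of_nonneg_right (le_abs_self K); linarith
          have h8 : 2 * Real.pi * 1 ≤ 2 * Real.pi * (r - 1) ^ (-κ) := by gcongr
          linarith
      _ = K' * (r - 1) ^ (-κ) := by rw [hK']; ring

/-- Part one: rotation at most `K (1 + sqrt (log 1/(r-1)))`, all `a < 1`, the full `|h|²`. -/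
theorem part_one (a K : ℝ) (ha : 0 < a) (ha1 : a < 1) :
    ∃ C : ℝ, ∃ R₀ : ℝ, 1 < R₀ ∧ ∀ R : ℝ, 1 < R → R < R₀ → ∀ ψ h : ℂ → ℂ,
      DifferentiableOn ℂ ψ Ext → InjOn ψ Ext →
      (∃ b : ℂ, Tendsto (fun z => ψ z - z) (Bornology.cobounded ℂ) (𝓝 b)) →
      DifferentiableOn ℂ h Ext → (∀ z ∈ Ext, exp (h z) = deriv ψ z) →
      Tendsto h (Bornology.cobounded ℂ) (𝓝 0) →
      (∀ r : ℝ, 1 < r → r < 2 → ∫ θ in (0:ℝ)..(2 * Real.pi),
        |(1 + pt r θ * deriv (deriv ψ) (pt r θ) / deriv ψ (pt r θ)).re| ≤ K * (1 + Real.sqrt (-Real.log (r - 1)))) →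
      1 / (2 * Real.pi) * ∫ θ in (0:ℝ)..(2 * Real.pi),
        Real.exp (a * ‖h (pt R θ)‖ ^ 2 / Real.log (R ^ 2 / (R ^ 2 - 1))) ≤ C := by
  set κ : ℝ := (1 - a) / 4 with hκd
  have hκ : 0 < κ := by rw [hκd]; linarith
  set s : ℝ := (1 + a) / 2 with hs
  have hs1 : s ≤ 1 := by rw [hs]; linarith
  have hsκ : s + κ < 1 := by rw [hs, hκd]; linarith
  have has : a < s := by rw [hs]; linarith
  obtain ⟨R₀, h1, h2, h3⟩ := lam_large (max 1 (5 * a / (s - a)))
  set K1 : ℝ := |K| + 2 * Real.pi with hK1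
  have hK10 : 0 ≤ K1 := by positivity
  set K' : ℝ := K1 * (2 + 1 / κ) with hK'
  have hK'0 : 0 ≤ K' := by positivity
  refine ⟨1 / (2 * Real.pi) * (Real.exp (4 * K1 ^ 2 + 4 * K1 ^ 2) * (2 * Real.pi * Real.exp 16 + 2 * Real.exp 4 * K' / (1 - s - κ))), R₀, h1, ?_⟩
  intro R hR1 hR2 ψ h hd hi hb hh he h0 hrot
  have hL := h3 R hR1 hR2
  have hL1 : 1 ≤ Real.log (R ^ 2 / (R ^ 2 - 1)) := (le_max_left _ _).trans hL
  have hL2 : 5 * a / (s - a) ≤ Real.log (R ^ 2 / (R ^ 2 - 1)) := (le_max_right _ _).trans hL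
  set Λ : ℝ := Real.log (R ^ 2 / (R ^ 2 - 1)) with hΛ
  have hpi : (0:ℝ) ≤ 2 * Real.pi := by positivity
  have hrot2 : ∀ r : ℝ, 1 < r → r < 2 → ∫ θ in (0:ℝ)..(2 * Real.pi), |ur h r θ| ≤ K1 * (1 + Real.sqrt (-Real.log (r - 1))) := by
    intro r hr1 hr2
    have h4 := ur_le hh he hr1
    have h5 := hrot r hr1 hr2
    have h6 : 0 ≤ Real.sqrt (-Real.log (r - 1)) := Real.sqrt_nonneg _
    have h7 : K * (1 + Real.sqrt (-Real.log (r - 1))) ≤ |K| * (1 + Real.sqrt (-Real.log (r - 1))) :=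
      mul_le_mul_of_nonneg_right (le_abs_self K) (by linarith)
    have h8 : 2 * Real.pi * 1 ≤ 2 * Real.pi * (1 + Real.sqrt (-Real.log (r - 1))) := by
      apply mul_le_mul_of_nonneg_left _ hpi
      linarith
    rw [hK1, add_mul]
    linarith
  have hre := main_re hd hi hb hh he ha ha1 hs1 hsκ hK'0 hR1 (by linarith) hL1 (by
      have h5 : 0 < s - a := by linarith
      rw [div_le_iff₀ h5] at hL2
      have h6 : 0 < Real.log (R ^ 2 / (R ^ 2 - 1)) := by linarith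
      have h7 : a * (5 / Real.log (R ^ 2 / (R ^ 2 - 1))) ≤ s - a := by
        rw [mul_div_assoc', div_le_iff₀ h6]
        linarith
      linarith) (by
      intro r hr
      have hr1 : 0 < r - 1 := by linarith [hr.1]
      have h4 := (vr_le hh (hR1.trans hr.1)).trans (hrot2 r (hR1.trans hr.1) hr.2)
      have h6 : 1 ≤ (r - 1) ^ (-κ) := by
        apply Real.one_le_rpow_of_pos_of_le_one_of_nonpos hr1 (by linarith [hr.2]) (by linarith)
      have hl0 : 0 ≤ -Real.log (r - 1) := by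
        have : Real.log (r - 1) ≤ 0 := Real.log_nonpos hr1.le (by linarith [hr.2])
        linarith
      have h7 : Real.sqrt (-Real.log (r - 1)) ≤ 1 + -Real.log (r - 1) := by
        rw [Real.sqrt_le_left (by linarith)]
        nlinarith
      have h8 : -Real.log (r - 1) ≤ (r - 1) ^ (-κ) / κ := by
        rw [← Real.log_inv]
        have := Real.log_le_rpow_div (x := (r - 1)⁻¹) (by positivity) hκ
        rwa [Real.inv_rpow hr1.le, ← Real.rpow_neg hr1.le] at this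
      refine h4.trans ?_
      rw [hK', mul_assoc]
      apply mul_le_mul_of_nonneg_left _ hK10
      calc 1 + Real.sqrt (-Real.log (r - 1)) ≤ 2 + (r - 1) ^ (-κ) / κ := by linarith
        _ ≤ 2 * (r - 1) ^ (-κ) + (r - 1) ^ (-κ) / κ := by linarith
        _ = _ := by ring)
  -- the imaginary part
  have him : ∀ θ ∈ Icc 0 (2 * Real.pi), |(h (pt R θ)).im| ≤ K1 * (1 + Real.sqrt (-Real.log (R - 1))) :=
    fun θ hθ => (im_le hh h0 hR1 hθ).trans (hrot2 R hR1 (by linarith))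
  have hlam := lam_ge hR1
  rw [← hΛ] at hlam
  have hΛ0 : 0 < Λ := by linarith
  have hlR : 0 ≤ -Real.log (R - 1) := by
    have : Real.log (R - 1) ≤ 0 := Real.log_nonpos (by linarith) (by linarith)
    linarith
  have him2 : ∀ θ ∈ Icc 0 (2 * Real.pi), a / Λ * (h (pt R θ)).im ^ 2 ≤ 4 * K1 ^ 2 + 4 * K1 ^ 2 := by
    intro θ hθ
    have h5 := him θ hθ
    have h6 : (h (pt R θ)).im ^ 2 ≤ (K1 * (1 + Real.sqrt (-Real.log (R - 1)))) ^ 2 := by
      rw [← sq_abs]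
      gcongr
    have h7 : (1 + Real.sqrt (-Real.log (R - 1))) ^ 2 ≤ 2 + 2 * (-Real.log (R - 1)) := by
      have := Real.sq_sqrt hlR
      nlinarith [sq_nonneg (1 - Real.sqrt (-Real.log (R - 1)))]
    have h8 : (h (pt R θ)).im ^ 2 ≤ K1 ^ 2 * (2 + 2 * (Λ + 1)) := by
      rw [mul_pow] at h6
      refine h6.trans ?_
      apply mul_le_mul_of_nonneg_left _ (sq_nonneg _)
      linarith
    have h9 : a / Λ ≤ 1 / Λ := by gcongr
    calc a / Λ * (h (pt R θ)).im ^ 2 ≤ 1 / Λ * (K1 ^ 2 * (2 + 2 * (Λ + 1))) := by gcongr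
      _ = K1 ^ 2 * (4 / Λ + 2) := by field_simp; ring
      _ ≤ K1 ^ 2 * (4 + 2) := by
          have : 4 / Λ ≤ 4 := by rw [div_le_iff₀ hΛ0]; linarith
          gcongr
      _ ≤ 4 * K1 ^ 2 + 4 * K1 ^ 2 := by nlinarith [sq_nonneg K1]
  have hch : Continuous fun t : ℝ => h (pt R t) := by
    rw [← continuousOn_univ]
    refine hh.continuousOn.comp (Continuous.continuousOn ?_) fun θ _ => pt_mem hR1 θ
    unfold pt; fun_prop
  apply half_mean
  calc ∫ θ in (0:ℝ)..(2 * Real.pi), Real.exp (a * ‖h (pt R θ)‖ ^ 2 / Λ)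
      ≤ ∫ θ in (0:ℝ)..(2 * Real.pi), Real.exp (4 * K1 ^ 2 + 4 * K1 ^ 2) * Real.exp (a / Λ * (h (pt R θ)).re ^ 2) := by
        apply intervalIntegral.integral_mono_on hpi
        · have : Continuous fun θ : ℝ => Real.exp (a * ‖h (pt R θ)‖ ^ 2 / Λ) :=
            Real.continuous_exp.comp ((continuous_const.mul (hch.norm.pow 2)).div_const Λ)
          exact this.intervalIntegrable _ _
        · have hcr : Continuous fun θ : ℝ => (h (pt R θ)).re := Complex.continuous_re.comp hch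
          have : Continuous fun θ : ℝ => Real.exp (4 * K1 ^ 2 + 4 * K1 ^ 2) * Real.exp (a / Λ * (h (pt R θ)).re ^ 2) := by fun_prop
          exact this.intervalIntegrable _ _
        · intro θ hθ
          rw [← Real.exp_add]
          apply Real.exp_le_exp.2
          have h5 := him2 θ hθ
          have h6 : ‖h (pt R θ)‖ ^ 2 = (h (pt R θ)).re ^ 2 + (h (pt R θ)).im ^ 2 := by
            rw [← Complex.normSq_eq_norm_sq, Complex.normSq_apply]; ring
          rw [h6]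
          have h7 : a * ((h (pt R θ)).re ^ 2 + (h (pt R θ)).im ^ 2) / Λ = a / Λ * (h (pt R θ)).re ^ 2 + a / Λ * (h (pt R θ)).im ^ 2 := by ring
          rw [h7]
          linarith
    _ = Real.exp (4 * K1 ^ 2 + 4 * K1 ^ 2) * ∫ θ in (0:ℝ)..(2 * Real.pi), Real.exp (a / Λ * (h (pt R θ)).re ^ 2) :=
        intervalIntegral.integral_const_mul _ _
    _ ≤ _ := by
        apply mul_le_mul_of_nonneg_left hre (Real.exp_pos _).le

end Pool.Agent.TH325.BVM
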