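import Mathlib
import Pool.Agent.TH325.BVM.E

set_option autoImplicit false

namespace Pool.Agent.Results.MP_16b0ee_an.BoundaryRotation

/-- `ψ ∈ Σ` and `h = log ψ'` (the branch vanishing at infinity), exactly as in the problem. -/
def IsSigma (ψ h : ℂ → ℂ) : Prop :=
  DifferentiableOn ℂ ψ {z : ℂ | 1 < ‖z‖} ∧
  Set.InjOn ψ {z : ℂ | 1 < ‖z‖} ∧
  (∃ b : ℂ, Filter.Tendsto (fun z => ψ z - z) (Bornology.cobounded ℂ) (nhds b)) ∧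
  DifferentiableOn ℂ h {z : ℂ | 1 < ‖z‖} ∧
  (∀ z : ℂ, 1 < ‖z‖ → Complex.exp (h z) = deriv ψ z) ∧
  Filter.Tendsto h (Bornology.cobounded ℂ) (nhds 0)

/-- The boundary rotation `∫_0^{2π} |Re (1 + z ψ''(z) / ψ'(z))| dθ`, `z = r e^{iθ}`. -/
noncomputable def boundaryRotation (ψ : ℂ → ℂ) (r : ℝ) : ℝ :=
  ∫ θ in (0:ℝ)..(2 * Real.pi),
    |(1 + ((r : ℂ) * Complex.exp ((θ : ℂ) * Complex.I)) *
        deriv (deriv ψ) ((r : ℂ) * Complex.exp ((θ : ℂ) * Complex.I)) /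
          deriv ψ ((r : ℂ) * Complex.exp ((θ : ℂ) * Complex.I))).re|

theorem result :
    (∀ a K : ℝ, 0 < a → a < 1 → ∃ C : ℝ, ∃ R₀ : ℝ, 1 < R₀ ∧ ∀ R : ℝ, 1 < R → R < R₀ →
      ∀ ψ h : ℂ → ℂ, IsSigma ψ h →
      (∀ r : ℝ, 1 < r → r < 2 →
        boundaryRotation ψ r ≤ K * (1 + Real.sqrt (Real.log (1 / (r - 1))))) →
      (1 / (2 * Real.pi)) * ∫ θ in (0:ℝ)..(2 * Real.pi),
        Real.exp (a * ‖h ((R : ℂ) * Complex.exp ((θ : ℂ) * Complex.I))‖ ^ 2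
          / Real.log (R ^ 2 / (R ^ 2 - 1))) ≤ C) ∧
    (∀ a κ K : ℝ, 0 < a → 0 ≤ κ → a + κ < 1 → ∃ C : ℝ, ∃ R₀ : ℝ, 1 < R₀ ∧
      ∀ R : ℝ, 1 < R → R < R₀ → ∀ ψ h : ℂ → ℂ, IsSigma ψ h →
      (∀ r : ℝ, 1 < r → r < 2 → boundaryRotation ψ r ≤ K * (r - 1) ^ (-κ)) →
      (1 / (2 * Real.pi)) * ∫ θ in (0:ℝ)..(2 * Real.pi),
        Real.exp (a * Real.log ‖deriv ψ ((R : ℂ) * Complex.exp ((θ : ℂ) * Complex.I))‖ ^ 2
          / Real.log (R ^ 2 / (R ^ 2 - 1))) ≤ C) := by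
  constructor
  · intro a K ha ha1
    obtain ⟨C, R₀, h1, h2⟩ := Pool.Agent.TH325.BVM.part_one a K ha ha1
    refine ⟨C, R₀, h1, fun R hR hR2 ψ h hS hrot => ?_⟩
    obtain ⟨s1, s2, s3, s4, s5, s6⟩ := hS
    refine h2 R hR hR2 ψ h s1 s2 s3 s4 s5 s6 fun r hr1 hr2 => ?_
    have := hrot r hr1 hr2
    rw [one_div, Real.log_inv] at this
    exact this
  · intro a κ K ha hκ haκ
    obtain ⟨C, R₀, h1, h2⟩ := Pool.Agent.TH325.BVM.part_two a κ K ha hκ haκ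
    refine ⟨C, R₀, h1, fun R hR hR2 ψ h hS hrot => ?_⟩
    obtain ⟨s1, s2, s3, s4, s5, s6⟩ := hS
    refine le_trans (le_of_eq ?_) (h2 R hR hR2 ψ h s1 s2 s3 s4 s5 fun r hr1 hr2 => hrot r hr1 hr2)
    congr 1
    apply intervalIntegral.integral_congr
    intro θ _
    simp only
    congr 1
    have h3 : (1:ℝ) < ‖(R : ℂ) * Complex.exp ((θ : ℂ) * Complex.I)‖ := Pool.Agent.TH325.BVM.pt_mem hR θ
    rw [← s5 _ h3, Complex.norm_exp, Real.log_exp]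
    have h4 : Pool.Agent.TH325.BVM.pt R θ = (R : ℂ) * Complex.exp ((θ : ℂ) * Complex.I) := rfl
    rw [h4]
    ring

end Pool.Agent.Results.MP_16b0ee_an.BoundaryRotation
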